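import Mathlib

/-!
# Combinatorial lemmas: the good pair of blocks, alternating chains
-/

namespace Pool.Agent.PrmH

open Finset

/-- C1. Few blocks are touched often. Proof: double counting
`∑_{i<b} #{p < N : i ∈ T p} ≤ ∑_{p<N} #(T p) ≤ N K`, and each `i` in the filter contributes at
least `l + 1`. -/
theorem few_heavy (N K b l : ℕ) (T : ℕ → Finset ℕ) (hT : ∀ p < N, (T p).card ≤ K) :
    (l + 1) * ((range b).filter (fun i => l < ((range N).filter (fun p => i ∈ T p)).card)).card ≤
      N * K := by
  set H := (range b).filter (fun i => l < ((range N).filter (fun p => i ∈ T p)).card) with hH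
  calc (l + 1) * H.card = ∑ _i ∈ H, (l + 1) := by simp [mul_comm]
    _ ≤ ∑ i ∈ H, ((range N).filter (fun p => i ∈ T p)).card := by
        refine Finset.sum_le_sum (fun i hi => ?_)
        have := (Finset.mem_filter.1 hi).2
        omega
    _ = ∑ p ∈ range N, (H.filter (fun i => i ∈ T p)).card := by
        simp only [Finset.card_filter]
        rw [Finset.sum_comm]
    _ ≤ ∑ _p ∈ range N, K := by
        refine Finset.sum_le_sum (fun p hp => ?_)
        refine le_trans (Finset.card_le_card (fun i hi => (Finset.mem_filter.1 hi).2)) ?_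
        exact hT p (Finset.mem_range.1 hp)
    _ = N * K := by simp

/-- C2. If every pair of different elements of `A` lies in some `T p`, `p < N`, then
`#A (#A - 1) ≤ N K²`. Proof: `A.offDiag ⊆ ⋃_{p<N} T p ×ˢ T p`, `Finset.offDiag_card`. -/
theorem pairs_covered (N K : ℕ) (A : Finset ℕ) (T : ℕ → Finset ℕ) (hT : ∀ p < N, (T p).card ≤ K)
    (h : ∀ i ∈ A, ∀ j ∈ A, i < j → ∃ p < N, i ∈ T p ∧ j ∈ T p) :
    A.card * (A.card - 1) ≤ N * K ^ 2 := by
  have hsub : A.offDiag ⊆ (range N).biUnion (fun p => T p ×ˢ T p) := by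
    intro z hz
    rw [Finset.mem_offDiag] at hz
    obtain ⟨h1, h2, h3⟩ := hz
    rcases lt_or_gt_of_ne h3 with h4 | h4
    · obtain ⟨p, hp, ha, hb⟩ := h _ h1 _ h2 h4
      exact Finset.mem_biUnion.2 ⟨p, Finset.mem_range.2 hp, Finset.mem_product.2 ⟨ha, hb⟩⟩
    · obtain ⟨p, hp, ha, hb⟩ := h _ h2 _ h1 h4
      exact Finset.mem_biUnion.2 ⟨p, Finset.mem_range.2 hp, Finset.mem_product.2 ⟨hb, ha⟩⟩
  have h1 := Finset.card_le_card hsub
  rw [Finset.offDiag_card] at h1
  have h2 : ((range N).biUnion (fun p => T p ×ˢ T p)).card ≤ N * K ^ 2 := by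
    refine le_trans Finset.card_biUnion_le ?_
    calc ∑ p ∈ range N, (T p ×ˢ T p).card ≤ ∑ _p ∈ range N, K ^ 2 := by
          refine Finset.sum_le_sum (fun p hp => ?_)
          rw [Finset.card_product, pow_two]
          exact Nat.mul_le_mul (hT p (Finset.mem_range.1 hp)) (hT p (Finset.mem_range.1 hp))
      _ = N * K ^ 2 := by simp
  have h3 : A.card * (A.card - 1) = A.card * A.card - A.card := by
    rw [Nat.mul_sub_one]
  omega

/-- C3. The good pair. Proof: the set `A` of `i < b` with at most `l` touches has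
`4 #A ≥ 3 b` (C1 and `h1`); if the conclusion fails, C2 gives `#A (#A - 1) ≤ N K²`, but
`16 #A (#A-1) ≥ 3b (3b-4) ≥ 3b * 8b/3 = 8 b²` since `b ≥ 12`; contradiction to `h2`. -/
theorem good_pair (N K b l : ℕ) (T : ℕ → Finset ℕ) (hT : ∀ p < N, (T p).card ≤ K)
    (hb : 12 ≤ b) (h1 : 4 * (N * K) ≤ b * (l + 1)) (h2 : 2 * (N * K ^ 2) < b ^ 2) :
    ∃ i j, i < j ∧ j < b ∧ ((range N).filter (fun p => i ∈ T p)).card ≤ l ∧
      ((range N).filter (fun p => j ∈ T p)).card ≤ l ∧ ∀ p < N, ¬ (i ∈ T p ∧ j ∈ T p) := by
  by_contra hcon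
  push Not at hcon
  set H := (range b).filter (fun i => l < ((range N).filter (fun p => i ∈ T p)).card) with hH
  set A := (range b).filter (fun i => ¬ l < ((range N).filter (fun p => i ∈ T p)).card) with hA
  have hc1 := few_heavy N K b l T hT
  rw [← hH] at hc1
  have hsum : H.card + A.card = b := by
    rw [hH, hA, Finset.card_filter_add_card_filter_not, Finset.card_range]
  have hH4 : 4 * H.card ≤ b := by
    have h3 : (l + 1) * (4 * H.card) ≤ (l + 1) * b := by nlinarith
    exact Nat.le_of_mul_le_mul_left h3 (Nat.succ_pos l)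
  have hA3 : 3 * b ≤ 4 * A.card := by omega
  have hc2 : A.card * (A.card - 1) ≤ N * K ^ 2 := by
    refine pairs_covered N K A T hT (fun i hi j hj hij => ?_)
    rw [hA, Finset.mem_filter, Finset.mem_range, not_lt] at hi hj
    obtain ⟨p, hp, h5, h6⟩ := hcon i j hij hj.1 hi.2 hj.2
    exact ⟨p, hp, h5, h6⟩
  obtain ⟨a, ha⟩ : ∃ a, A.card = a + 1 := ⟨A.card - 1, by omega⟩
  rw [ha] at hc2 hA3
  have h7 : (a + 1) * a ≤ N * K ^ 2 := by simpa using hc2
  have h8 : 3 * b ≤ 4 * a + 4 := by omega
  have h9 : b ^ 2 ≤ 2 * ((a + 1) * a) := by nlinarith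
  omega

/-- C4. Alternating chain. `c 0, …, c t` is a path whose step `s` is in the relation
`R (lab s)`; if there are at most `l` maximal runs of the label `true`, then the path is a
chain of `2 l + 1` segments, the segment `s` being a path for `R true` if `s` is odd and for
`R false` if `s` is even (segments may be trivial). All chain points are points of the path.
Proof: let `q s` be the number of starts of `true` runs before `s`. Induction on `s ≤ t`: there is
a chain from `c 0` to `c s` with `2 q(s) + 1` segments if `s = 0` or `lab (s-1) = false`, and with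
`2 q(s)` segments (last one odd) if `lab (s-1) = true`. Pad with trivial segments at the end. -/
theorem alt_chain {α : Type*} (R : Bool → α → α → Prop) (t : ℕ) (c : ℕ → α) (lab : ℕ → Bool)
    (hstep : ∀ s < t, R (lab s) (c s) (c (s + 1))) (l : ℕ)
    (hl : ((range t).filter (fun s => lab s = true ∧ (s = 0 ∨ lab (s - 1) = false))).card ≤ l) :
    ∃ d : ℕ → α, d 0 = c 0 ∧ d (2 * l + 1) = c t ∧ (∀ s, ∃ r ≤ t, d s = c r) ∧
      ∀ s < 2 * l + 1, Relation.ReflTransGen (R (decide (s % 2 = 1))) (d s) (d (s + 1)) := by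
  classical
  let Ch : ℕ → α → Prop := fun n x => ∃ d : ℕ → α, d 0 = c 0 ∧ d n = x ∧
    (∀ s, ∃ r ≤ t, d s = c r) ∧
    ∀ s < n, Relation.ReflTransGen (R (decide (s % 2 = 1))) (d s) (d (s + 1))
  have pad : ∀ n x, Ch n x → Ch (n + 1) x := by
    rintro n x ⟨d, h0, hn, hp, hs⟩
    refine ⟨fun s => if s ≤ n then d s else d n, ?_, ?_, ?_, ?_⟩
    · simp [h0]
    · simp [hn]
    · intro s
      by_cases h : s ≤ n
      · simp only [h, if_true]; exact hp s
      · simp only [h, if_false]; exact hp n
    · intro s hs'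
      rcases Nat.lt_succ_iff_lt_or_eq.1 hs' with h | h
      · have h1 : s ≤ n := by omega
        have h2 : s + 1 ≤ n := by omega
        simp only [h1, h2, if_true]
        exact hs s h
      · subst h
        have h2 : ¬ s + 1 ≤ s := by omega
        simp only [le_refl, if_true, h2, if_false]
        exact Relation.ReflTransGen.refl
  have ext : ∀ n x y, Ch (n + 1) x → R (decide (n % 2 = 1)) x y → (∃ r ≤ t, y = c r) →
      Ch (n + 1) y := by
    rintro n x y ⟨d, h0, hn, hp, hs⟩ hR hy
    refine ⟨fun s => if s = n + 1 then y else d s, ?_, ?_, ?_, ?_⟩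
    · simp [h0]
    · simp
    · intro s
      by_cases h : s = n + 1
      · simp only [h, if_true]; exact hy
      · simp only [h, if_false]; exact hp s
    · intro s hs'
      have h1 : s ≠ n + 1 := by omega
      simp only [h1, if_false]
      by_cases h2 : s + 1 = n + 1
      · have h3 : s = n := by omega
        subst h3
        simp only [if_true]
        have h4 := hs s (by omega)
        rw [hn] at h4
        exact h4.tail hR
      · simp only [h2, if_false]
        exact hs s hs'
  have padN : ∀ k n x, Ch n x → Ch (n + k) x := by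
    intro k
    induction k with
    | zero => intro n x h; exact h
    | succ k ih => intro n x h; exact pad _ _ (ih n x h)
  set q : ℕ → ℕ := fun s =>
    ((range s).filter (fun s => lab s = true ∧ (s = 0 ∨ lab (s - 1) = false))).card with hq
  have qsucc : ∀ s, q (s + 1) = q s + if lab s = true ∧ (s = 0 ∨ lab (s - 1) = false) then 1 else 0 := by
    intro s
    simp only [hq]
    rw [Finset.range_add_one, Finset.filter_insert]
    split_ifs with h
    · rw [Finset.card_insert_of_notMem (by simp)]
    · rfl
  have main : ∀ s ≤ t, ((s = 0 ∨ lab (s - 1) = false) → Ch (2 * q s + 1) (c s)) ∧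
      ((s ≠ 0 ∧ lab (s - 1) = true) → 1 ≤ q s ∧ Ch (2 * q s) (c s)) := by
    intro s
    induction s with
    | zero =>
      intro _
      refine ⟨fun _ => ?_, fun h => absurd rfl h.1⟩
      have h0 : q 0 = 0 := by simp [hq]
      rw [h0]
      exact ⟨fun _ => c 0, rfl, rfl, fun _ => ⟨0, Nat.zero_le _, rfl⟩,
        fun s _ => Relation.ReflTransGen.refl⟩
    | succ s ih =>
      intro hst
      obtain ⟨ih1, ih2⟩ := ih (by omega)
      have hR := hstep s (by omega)
      have hpt : ∃ r ≤ t, c (s + 1) = c r := ⟨s + 1, hst, rfl⟩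
      have hall : Ch (2 * q s + 1) (c s) := by
        by_cases h : s = 0 ∨ lab (s - 1) = false
        · exact ih1 h
        · rw [not_or] at h
          have h' : s ≠ 0 ∧ lab (s - 1) = true := ⟨h.1, by simpa using h.2⟩
          exact pad _ _ (ih2 h').2
      refine ⟨?_, ?_⟩
      · intro h
        have hl0 : lab s = false := by
          rcases h with h | h
          · omega
          · simpa using h
        have hqs : q (s + 1) = q s := by rw [qsucc, hl0]; simp
        rw [hqs]
        refine ext (2 * q s) _ _ hall ?_ hpt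
        rw [hl0] at hR
        have h6 : decide ((2 * q s) % 2 = 1) = false := by
          simp
        rw [h6]; exact hR
      · rintro ⟨_, h⟩
        have hl1 : lab s = true := by simpa using h
        rw [hl1] at hR
        by_cases h' : s = 0 ∨ lab (s - 1) = false
        · have hqs : q (s + 1) = q s + 1 := by rw [qsucc, if_pos ⟨hl1, h'⟩]
          rw [hqs]
          refine ⟨by omega, ?_⟩
          have h7 : 2 * (q s + 1) = (2 * q s + 1) + 1 := by ring
          rw [h7]
          refine ext (2 * q s + 1) _ _ (pad _ _ hall) ?_ hpt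
          have h6 : decide ((2 * q s + 1) % 2 = 1) = true := by
            rw [decide_eq_true_iff]; omega
          rw [h6]; exact hR
        · have hqs : q (s + 1) = q s := by
            rw [qsucc, if_neg (fun hh => h' hh.2)]; rfl
          rw [hqs]
          rw [not_or] at h'
          have h'' : s ≠ 0 ∧ lab (s - 1) = true := ⟨h'.1, by simpa using h'.2⟩
          obtain ⟨hq1, hC⟩ := ih2 h''
          refine ⟨hq1, ?_⟩
          obtain ⟨v, hv⟩ : ∃ v, 2 * q s = v + 1 := ⟨2 * q s - 1, by omega⟩
          rw [hv] at hC ⊢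
          refine ext v _ _ hC ?_ hpt
          have h6 : decide (v % 2 = 1) = true := by
            rw [decide_eq_true_iff]; omega
          rw [h6]; exact hR
  have hql : q t ≤ l := hl
  obtain ⟨m1, m2⟩ := main t le_rfl
  have hfin : Ch (2 * q t + 1) (c t) := by
    by_cases h : t = 0 ∨ lab (t - 1) = false
    · exact m1 h
    · rw [not_or] at h
      exact pad _ _ (m2 ⟨h.1, by simpa using h.2⟩).2
  have h9 := padN (2 * (l - q t)) _ _ hfin
  have h10 : 2 * q t + 1 + 2 * (l - q t) = 2 * l + 1 := by omega
  rw [h10] at h9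
  exact h9

end Pool.Agent.PrmH
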