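import Pool.Agent.PrmH.Aut
import Pool.Agent.PrmH.Comb

/-!
# Periods of a computation, touched blocks, transcripts
-/

namespace Pool.Agent.PrmH

open Finset Pool.Agent.MP_5082c5_lc

variable {k : ℕ} {Q : Type}

/-- the period of the configuration `c s` -/
noncomputable def per (m : ℕ) (c : ℕ → Cf k Q) (s : ℕ) : ℕ := trav c s / m

open Classical in
/-- the blocks scanned in the period `p` -/
noncomputable def touched (m t : ℕ) (c : ℕ → Cf k Q) (p : ℕ) : Finset ℕ :=
  ((range (t + 1) ×ˢ (univ : Finset (Fin k))).filter (fun z => per m c z.1 = p)).image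
    (fun z => ((c z.1).2 z.2 - 1) / m)

private theorem P1_two (S : Finset ℕ) (h : ∀ x ∈ S, ∀ y ∈ S, y ≤ x + 1) : S.card ≤ 2 := by
  rcases S.eq_empty_or_nonempty with rfl | hne
  · simp
  · have hmin := S.min'_mem hne
    have hsub : S ⊆ {S.min' hne, S.min' hne + 1} := by
      intro y hy
      have h1 := S.min'_le y hy
      have h2 := h _ hmin y hy
      simp only [Finset.mem_insert, Finset.mem_singleton]
      omega
    exact le_trans (Finset.card_le_card hsub) Finset.card_le_two

private theorem P1_div (m x x' a a' : ℕ) (hm : 0 < m) (hd : a / m = a' / m)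
    (h1 : x' ≤ x + (a' - a)) (h2 : a ≤ a') : (x' - 1) / m ≤ (x - 1) / m + 1 := by
  have h3 : a' - a < m := by
    have h4 := Nat.div_add_mod a m
    have h5 := Nat.div_add_mod a' m
    have h6 := Nat.mod_lt a hm
    have h7 := Nat.mod_lt a' hm
    rw [hd] at h4
    omega
  have h8 : (x - 1) / m + 1 = ((x - 1) + m) / m := by
    rw [Nat.add_div_right _ hm]
  rw [h8]
  exact Nat.div_le_div_right (by omega)

/-- P1. One period touches at most `2 k` blocks. Proof: for one head and `s ≤ s'` in one period
`trav c s' - trav c s ≤ m - 1`, so (A5) the positions differ by at most `m - 1` and the block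
numbers by at most 1; a set of naturals with pairwise differences at most 1 has at most two
elements. Sum over the heads. -/
theorem touched_card {A : Aut k Q} {u : List Bool} {D t : ℕ} {c : ℕ → Cf k Q}
    (hc : A.Comp u D t c) (m : ℕ) (hm : 0 < m) (p : ℕ) :
    (touched m t c p).card ≤ 2 * k := by
  classical
  let F : Fin k → Finset ℕ := fun h =>
    ((range (t + 1)).filter (fun s => per m c s = p)).image (fun s => ((c s).2 h - 1) / m)
  have hsub : touched m t c p ⊆ (univ : Finset (Fin k)).biUnion F := by
    intro y hy
    unfold touched at hy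
    simp only [Finset.mem_image, Finset.mem_filter, Finset.mem_product, Finset.mem_range,
      Finset.mem_univ, and_true] at hy
    obtain ⟨⟨s, h⟩, ⟨h1, h2⟩, h3⟩ := hy
    refine Finset.mem_biUnion.2 ⟨h, Finset.mem_univ _, ?_⟩
    exact Finset.mem_image.2 ⟨s, Finset.mem_filter.2 ⟨Finset.mem_range.2 h1, h2⟩, h3⟩
  have hF : ∀ h : Fin k, (F h).card ≤ 2 := by
    intro h
    refine P1_two _ ?_
    intro x hx y hy
    obtain ⟨s, hs, rfl⟩ := Finset.mem_image.1 hx
    obtain ⟨s', hs', rfl⟩ := Finset.mem_image.1 hy
    rw [Finset.mem_filter, Finset.mem_range] at hs hs'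
    have hd : trav c s / m = trav c s' / m := by
      have h1 := hs.2
      have h2 := hs'.2
      unfold per at h1 h2
      rw [h1, h2]
    rcases le_total s s' with hle | hle
    · obtain ⟨g1, g2, g3⟩ := hc.pos_diff s s' hle (by omega) h
      exact P1_div m _ _ _ _ hm hd g2 g1
    · obtain ⟨g1, g2, g3⟩ := hc.pos_diff s' s hle (by omega) h
      exact P1_div m _ _ _ _ hm hd.symm g3 g1
  calc (touched m t c p).card ≤ ((univ : Finset (Fin k)).biUnion F).card := Finset.card_le_card hsub
    _ ≤ ∑ h : Fin k, (F h).card := Finset.card_biUnion_le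
    _ ≤ ∑ _h : Fin k, 2 := Finset.sum_le_sum (fun h _ => hF h)
    _ = 2 * k := by simp [mul_comm]

private theorem P2_mono (c : ℕ → Cf k Q) (s s' : ℕ) (hs : s ≤ s') : trav c s ≤ trav c s' := by
  unfold trav
  refine Set.ncard_le_ncard ?_ ?_
  · rintro r ⟨h1, h2⟩
    exact ⟨by omega, h2⟩
  · exact (Set.finite_Iio s').subset (fun r hr => hr.1)

/-- P2. -/
theorem per_lt {A : Aut k Q} {u : List Bool} {D t : ℕ} {c : ℕ → Cf k Q}
    (hc : A.Comp u D t c) (m : ℕ) (s : ℕ) (hs : s ≤ t) : per m c s < D / m + 1 := by
  have h1 : trav c s ≤ D := le_trans (P2_mono c s t hs) hc.travel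
  exact Nat.lt_succ_of_le (Nat.div_le_div_right h1)

/-- P3. -/
theorem free_of_not_touched (m t : ℕ) (c : ℕ → Cf k Q) (s i : ℕ) (hs : s ≤ t)
    (h : i ∉ touched m t c (per m c s)) : Free m i (c s) := by
  classical
  intro j hj
  apply h
  unfold touched
  refine Finset.mem_image.2 ⟨(s, j), Finset.mem_filter.2 ⟨?_, rfl⟩, hj⟩
  exact Finset.mem_product.2 ⟨Finset.mem_range.2 (by omega), Finset.mem_univ _⟩

/-- P4. The label of a step: does its period touch the block `j`? The number of starts of runs of
the label `true` is at most the number of periods that touch `j`. Proof: `per m c` is monotone in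
`s`; at the start `s` of a run `j ∈ touched (per s)` and (`s = 0` or) `j ∉ touched (per (s-1))`,
so `per (s-1) < per s`: the map `per` from the starts to the periods is injective. -/
theorem run_starts {A : Aut k Q} {u : List Bool} {D t : ℕ} {c : ℕ → Cf k Q}
    (hc : A.Comp u D t c) (m j l : ℕ)
    (hl : ((range (D / m + 1)).filter (fun p => j ∈ touched m t c p)).card ≤ l) :
    ((range t).filter (fun s => decide (j ∈ touched m t c (per m c s)) = true ∧
      (s = 0 ∨ decide (j ∈ touched m t c (per m c (s - 1))) = false))).card ≤ l := by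
  classical
  refine le_trans ?_ hl
  refine Finset.card_le_card_of_injOn (fun s => per m c s) ?_ ?_
  · intro s hs
    rw [Finset.mem_coe, Finset.mem_filter, Finset.mem_range] at hs
    rw [Finset.mem_coe, Finset.mem_filter, Finset.mem_range]
    exact ⟨per_lt hc m s (by omega), by simpa using hs.2.1⟩
  · have key : ∀ s s', s < s' →
        s ∈ ((range t).filter (fun s => decide (j ∈ touched m t c (per m c s)) = true ∧
          (s = 0 ∨ decide (j ∈ touched m t c (per m c (s - 1))) = false))) →
        s' ∈ ((range t).filter (fun s => decide (j ∈ touched m t c (per m c s)) = true ∧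
          (s = 0 ∨ decide (j ∈ touched m t c (per m c (s - 1))) = false))) →
        per m c s ≠ per m c s' := by
      intro s s' hlt hs hs' he
      rw [Finset.mem_filter, Finset.mem_range] at hs hs'
      have h1 : j ∈ touched m t c (per m c s) := by simpa using hs.2.1
      have h2 : j ∉ touched m t c (per m c (s' - 1)) := by
        rcases hs'.2.2 with h | h
        · omega
        · simpa using h
      apply h2
      have h3 : per m c s ≤ per m c (s' - 1) :=
        Nat.div_le_div_right (P2_mono c s (s' - 1) (by omega))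
      have h4 : per m c (s' - 1) ≤ per m c s' :=
        Nat.div_le_div_right (P2_mono c (s' - 1) s' (by omega))
      have h5 : per m c (s' - 1) = per m c s := by omega
      rw [h5]
      exact h1
    intro s hs s' hs' he
    rw [Finset.mem_coe] at hs hs'
    rcases lt_trichotomy s s' with h | h | h
    · exact absurd he (key s s' h hs hs')
    · exact h
    · exact absurd he.symm (key s' s h hs' hs)

/-- A step that does not scan block `j`, first block content `x` (second one irrelevant). -/
def SI (A : Aut k Q) (m j : ℕ) (a b e x : List Bool) (c d : Cf k Q) : Prop :=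
  Free m j c ∧ A.Step (fr a x b (List.replicate m false) e) c d

/-- A step that does not scan block `i`, second block content `y`. -/
def SJ (A : Aut k Q) (m i : ℕ) (a b e y : List Bool) (c d : Cf k Q) : Prop :=
  Free m i c ∧ A.Step (fr a (List.replicate m false) b y e) c d

/-- transcripts: `2 l + 2` configurations -/
abbrev Tr (k : ℕ) (Q : Type) (n l : ℕ) := Fin (2 * l + 2) → Q × (Fin k → Fin (n + 2))

/-- forget the bound of the positions -/
def toCf {n : ℕ} (z : Q × (Fin k → Fin (n + 2))) : Cf k Q := (z.1, fun h => (z.2 h : ℕ))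

/-- the even segments are possible for `x` -/
def OkX (A : Aut k Q) (m j : ℕ) (a b e : List Bool) {n l : ℕ} (d : Tr k Q n l) (x : List Bool) :
    Prop :=
  ∀ s : Fin (2 * l + 1), (s : ℕ) % 2 = 0 →
    Relation.ReflTransGen (SI A m j a b e x) (toCf (d s.castSucc)) (toCf (d s.succ))

/-- the odd segments are possible for `y` -/
def OkY (A : Aut k Q) (m i : ℕ) (a b e : List Bool) {n l : ℕ} (d : Tr k Q n l) (y : List Bool) :
    Prop :=
  ∀ s : Fin (2 * l + 1), (s : ℕ) % 2 = 1 →
    Relation.ReflTransGen (SJ A m i a b e y) (toCf (d s.castSucc)) (toCf (d s.succ))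

/-- the transcript begins with the initial configuration and ends in an accepting state -/
def OkE (A : Aut k Q) {n l : ℕ} (d : Tr k Q n l) : Prop :=
  toCf (d 0) = (A.start, fun _ => 0) ∧ (d (Fin.last _)).1 ∈ A.acc

/-- `i < j` is a good pair of blocks for the word `u` -/
def Good (A : Aut k Q) (m l D i j : ℕ) (u : List Bool) : Prop :=
  ∃ t c, A.Comp u D t c ∧
    ((range (D / m + 1)).filter (fun p => j ∈ touched m t c p)).card ≤ l ∧
    ∀ p < D / m + 1, ¬ (i ∈ touched m t c p ∧ j ∈ touched m t c p)

/-- P5. Every accepted word has a good pair. (`good_pair` with `N = D / m + 1`, `K = 2 k`, P1.) -/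
theorem exists_good (A : Aut k Q) (m l D b : ℕ) (hm : 0 < m) (u : List Bool)
    (h : A.AccIn u D) (hb : 12 ≤ b) (h1 : 4 * ((D / m + 1) * (2 * k)) ≤ b * (l + 1))
    (h2 : 2 * ((D / m + 1) * (2 * k) ^ 2) < b ^ 2) :
    ∃ i j, i < j ∧ j < b ∧ Good A m l D i j u := by
  obtain ⟨t, c, hc⟩ := h
  obtain ⟨i, j, hij, hjb, hi, hj, hd⟩ := good_pair (D / m + 1) (2 * k) b l (touched m t c)
    (fun p _ => touched_card hc m hm p) hb h1 h2
  exact ⟨i, j, hij, hjb, t, c, hc, hj, hd⟩

/-- P6. Transcript of a computation. Proof: `alt_chain` with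
`R true = SJ A m i a b e y`, `R false = SI A m j a b e x`,
`lab s = decide (j ∈ touched m t c (per m c s))`: if the label of `s` is `false`, `c s` is free of
block `j` (P3) and A2 replaces `y` by `replicate m false`; if it is `true`, the block `i` is not
touched in this period (`Good`, P2), P3 and A3. P4 bounds the number of runs. The positions are at
most `n + 1` (A4) at all chain points, which are points of the computation. -/
theorem transcript (A : Aut k Q) (m l D i j n : ℕ) (hm : 0 < m) (a x b y e : List Bool)
    (ha : a.length = i * m) (hx : x.length = m) (hb : a.length + x.length + b.length = j * m)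
    (hy : y.length = m) (hn : (fr a x b y e).length = n)
    (h : Good A m l D i j (fr a x b y e)) :
    ∃ d : Tr k Q n l, OkE A d ∧ OkX A m j a b e d x ∧ OkY A m i a b e d y := by
  classical
  obtain ⟨t, c, hc, hl, hdis⟩ := h
  obtain ⟨d, hd0, hdl, hdp, hds⟩ := alt_chain
    (fun z => if z = true then SJ A m i a b e y else SI A m j a b e x) t c
    (fun s => decide (j ∈ touched m t c (per m c s))) (fun s hs => by
      by_cases hjt : j ∈ touched m t c (per m c s)
      · have hi : i ∉ touched m t c (per m c s) := fun hi =>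
          hdis _ (per_lt hc m s (by omega)) ⟨hi, hjt⟩
        simp only [hjt, decide_true, if_true]
        have hf := free_of_not_touched m t c s i (by omega) hi
        exact ⟨hf, step_x A m i hm a x (List.replicate m false) b y e ha hx (by simp) _ _ hf
          (hc.step s hs)⟩
      · simp only [hjt, decide_false]
        have hf := free_of_not_touched m t c s j (by omega) hjt
        exact ⟨hf, step_y A m j hm a x b y (List.replicate m false) e hb hy (by simp) _ _ hf
          (hc.step s hs)⟩) l (run_starts hc m j l hl)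
  have hpos : ∀ s (h : Fin k), (d s).2 h < n + 2 := by
    intro s h
    obtain ⟨r, hr, hdr⟩ := hdp s
    rw [hdr]
    have := hc.pos_le r hr h
    omega
  let D' : Tr k Q n l := fun s => ((d s).1, fun h => ⟨(d s).2 h, hpos s h⟩)
  have hto : ∀ s, toCf (D' s) = d s := fun s => rfl
  refine ⟨D', ⟨?_, ?_⟩, ?_, ?_⟩
  · rw [hto, Fin.val_zero, hd0, hc.init]
  · have h1 : (D' (Fin.last _)).1 = (d (2 * l + 1)).1 := rfl
    rw [h1, hdl]
    exact hc.fin
  · intro s hs
    have h1 := hds s s.2
    have h2 : decide ((s : ℕ) % 2 = 1) = false := by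
      rw [decide_eq_false_iff_not]; omega
    rw [h2] at h1
    simpa [hto] using h1
  · intro s hs
    have h1 := hds s s.2
    have h2 : decide ((s : ℕ) % 2 = 1) = true := by
      rw [decide_eq_true_iff]; omega
    rw [h2] at h1
    simpa [hto] using h1

private theorem P7_seq {α : Type*} (R : α → α → Prop) (a b : α) (h : Relation.ReflTransGen R a b) :
    ∃ (t : ℕ) (c : ℕ → α), c 0 = a ∧ c t = b ∧ ∀ s < t, R (c s) (c (s + 1)) := by
  induction h with
  | refl => exact ⟨0, fun _ => a, rfl, rfl, fun s hs => absurd hs (Nat.not_lt_zero s)⟩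
  | @tail x y _ hxy ih =>
    obtain ⟨t, c, h0, ht, hs⟩ := ih
    refine ⟨t + 1, fun s => if s ≤ t then c s else y, ?_, ?_, ?_⟩
    · simp [h0]
    · simp
    · intro s hs'
      have h1 : s ≤ t := by omega
      simp only [h1, if_true]
      by_cases h2 : s + 1 ≤ t
      · simp only [h2, if_true]
        exact hs s (by omega)
      · have h3 : s = t := by omega
        subst h3
        simp only [h2, if_false]
        rw [ht]
        exact hxy

/-- P7. Conversely a transcript gives acceptance. Proof: every `SI` step is a step on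
`fr a x b y e` (A2 from `replicate m false` to `y`), every `SJ` step too (A3); concatenate:
`ReflTransGen (A.Step (fr a x b y e)) (A.start, 0) (toCf (d last))`, then a path
`c 0, …, c t` (`Relation.ReflTransGen` to a sequence), `D = t`. -/
theorem acc_of_transcript (A : Aut k Q) (m l i j n : ℕ) (hm : 0 < m) (a x b y e : List Bool)
    (ha : a.length = i * m) (hx : x.length = m) (hb : a.length + x.length + b.length = j * m)
    (hy : y.length = m) (d : Tr k Q n l) (hE : OkE A d) (hX : OkX A m j a b e d x)
    (hY : OkY A m i a b e d y) : A.Acc (fr a x b y e) := by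
  have hI : ∀ c c', SI A m j a b e x c c' → A.Step (fr a x b y e) c c' := fun c c' h =>
    step_y A m j hm a x b (List.replicate m false) y e hb (by simp) hy c c' h.1 h.2
  have hJ : ∀ c c', SJ A m i a b e y c c' → A.Step (fr a x b y e) c c' := fun c c' h =>
    step_x A m i hm a (List.replicate m false) x b y e ha (by simp) hx c c' h.1 h.2
  have hseg : ∀ s : Fin (2 * l + 1),
      Relation.ReflTransGen (A.Step (fr a x b y e)) (toCf (d s.castSucc)) (toCf (d s.succ)) := by
    intro s
    rcases Nat.mod_two_eq_zero_or_one (s : ℕ) with h | h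
    · exact Relation.ReflTransGen.mono hI _ _ (hX s h)
    · exact Relation.ReflTransGen.mono hJ _ _ (hY s h)
  have hall : ∀ s : ℕ, ∀ hs : s < 2 * l + 2,
      Relation.ReflTransGen (A.Step (fr a x b y e)) (toCf (d 0)) (toCf (d ⟨s, hs⟩)) := by
    intro s
    induction s with
    | zero => intro hs; exact Relation.ReflTransGen.refl
    | succ s ih =>
      intro hs
      exact (ih (by omega)).trans (hseg ⟨s, by omega⟩)
  have hfin := hall (2 * l + 1) (by omega)
  rw [hE.1] at hfin
  obtain ⟨t, c, h0, ht, hs⟩ := P7_seq _ _ _ hfin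
  refine ⟨_, t, c, ⟨h0, hs, ?_, le_rfl⟩⟩
  rw [ht]
  exact hE.2

end Pool.Agent.PrmH
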