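import Pool.Agent.PrmH.Aut
import Pool.Agent.MP_5082c5_lc.Rect

/-!
# All-prime rectangles in two blocks are small; counting words
-/

namespace Pool.Agent.PrmH

open Finset Real Pool.Agent.MP_5082c5_lc

/-- R1. Like `residues` of MP_5082c5_lc/Rect.lean, for `g + 2^e1 x + 2^e2 y`. (Same proof: the
residues `-(g + 2^e1 x)`, `x ∈ A`, and `2^e2 y`, `y ∈ B`, in `ZMod p` are different, and
multiplication by a power of 2 and translation are injective.) -/
theorem residues2 (p : ℕ) (hp : p.Prime) (hp2 : p ≠ 2) (g e1 e2 : ℕ) (A B : Finset ℕ)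
    (h : ∀ x ∈ A, ∀ y ∈ B, ¬ p ∣ g + 2 ^ e1 * x + 2 ^ e2 * y) :
    (A.image (fun a : ℕ => a % p)).card + (B.image (fun a : ℕ => a % p)).card ≤ p := by
  classical
  have : Fact p.Prime := ⟨hp⟩
  have h2 : (2 : ZMod p) ≠ 0 := by
    intro h0
    have h1 : ((2 : ℕ) : ZMod p) = 0 := by exact_mod_cast h0
    rw [ZMod.natCast_eq_zero_iff] at h1
    exact hp2 ((Nat.prime_dvd_prime_iff_eq hp Nat.prime_two).1 h1)
  have hinj : ∀ x y : ℕ, x < p → y < p → (x : ZMod p) = (y : ZMod p) → x = y := by
    intro x y hx hy hxy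
    have := (ZMod.natCast_eq_natCast_iff' x y p).1 hxy
    rwa [Nat.mod_eq_of_lt hx, Nat.mod_eq_of_lt hy] at this
  have q1 : (A.image (fun a : ℕ => a % p)).card =
      (A.image (fun x : ℕ => -((g : ZMod p) + 2 ^ e1 * (x : ZMod p)))).card := by
    have : A.image (fun x : ℕ => -((g : ZMod p) + 2 ^ e1 * (x : ZMod p))) =
        (A.image (fun a : ℕ => a % p)).image
          (fun x : ℕ => -((g : ZMod p) + 2 ^ e1 * (x : ZMod p))) := by
      rw [Finset.image_image]
      refine Finset.image_congr fun x _ => ?_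
      simp
    rw [this]
    symm
    apply Finset.card_image_of_injOn
    intro x hx y hy hxy
    simp only [coe_image, Set.mem_image, mem_coe] at hx hy
    obtain ⟨x', -, rfl⟩ := hx
    obtain ⟨y', -, rfl⟩ := hy
    simp only [neg_inj] at hxy
    have h3 : (2 : ZMod p) ^ e1 ≠ 0 := pow_ne_zero _ h2
    have h4 := mul_left_cancel₀ h3 (add_left_cancel hxy)
    exact hinj _ _ (Nat.mod_lt _ hp.pos) (Nat.mod_lt _ hp.pos) h4
  have q2 : (B.image (fun a : ℕ => a % p)).card =
      (B.image (fun x : ℕ => 2 ^ e2 * (x : ZMod p))).card := by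
    have : B.image (fun x : ℕ => 2 ^ e2 * (x : ZMod p)) =
        (B.image (fun a : ℕ => a % p)).image (fun x : ℕ => 2 ^ e2 * (x : ZMod p)) := by
      rw [Finset.image_image]
      refine Finset.image_congr fun x _ => ?_
      simp
    rw [this]
    symm
    apply Finset.card_image_of_injOn
    intro x hx y hy hxy
    simp only [coe_image, Set.mem_image, mem_coe] at hx hy
    obtain ⟨x', -, rfl⟩ := hx
    obtain ⟨y', -, rfl⟩ := hy
    have h3 : (2 : ZMod p) ^ e2 ≠ 0 := pow_ne_zero _ h2
    exact hinj _ _ (Nat.mod_lt _ hp.pos) (Nat.mod_lt _ hp.pos) (mul_left_cancel₀ h3 hxy)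
  rw [q1, q2, ← Finset.card_union_of_disjoint]
  · refine (Finset.card_le_univ _).trans ?_
    rw [ZMod.card]
  · rw [Finset.disjoint_left]
    intro z hz hz'
    simp only [mem_image] at hz hz'
    obtain ⟨x, hx, rfl⟩ := hz
    obtain ⟨y, hy, hxy⟩ := hz'
    apply h x hx y hy
    rw [← ZMod.natCast_eq_zero_iff]
    push_cast
    rw [hxy]
    ring

/-- R2. Like `rect_small`: all values are primes larger than `2^e`. (Copy of the proof of
`rect_small` with `L = m`, `residues2` instead of `residues`.) -/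
theorem rect_small2 (m e g e1 e2 : ℕ) (A B : Finset ℕ) (hA : ∀ x ∈ A, x < 2 ^ m)
    (hB : ∀ y ∈ B, y < 2 ^ m)
    (hprime : ∀ x ∈ A, ∀ y ∈ B, (g + 2 ^ e1 * x + 2 ^ e2 * y).Prime ∧
      2 ^ e < g + 2 ^ e1 * x + 2 ^ e2 * y)
    (he : m + 14 ≤ 2 * e) :
    A.card ≤ 2 * 2 ^ e ∨ B.card ≤ 2 * 2 ^ e := by
  classical
  rcases A.eq_empty_or_nonempty with rfl | hAne
  · left; simp
  rcases B.eq_empty_or_nonempty with rfl | hBne
  · right; simp
  set z : ℕ := 2 ^ e with hz
  set P : Finset ℕ := (pr z).filter (· ≠ 2) with hP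
  have hPp : ∀ p ∈ P, p.Prime := fun p hp => (mem_pr.1 (mem_filter.1 hp).1).2
  have hPz : ∀ p ∈ P, p ≤ z := fun p hp => (mem_pr.1 (mem_filter.1 hp).1).1
  have hz0 : z ≠ 0 := by positivity
  have hm := mertens z hz0
  have hlogz : Real.log z = e * Real.log 2 := by
    rw [hz]; push_cast; rw [Real.log_pow]
  have hlog2 := Real.log_two_gt_d9
  have hPsum : ∑ p ∈ P, Real.log (p : ℝ) ≤ 2 * z := by
    refine le_trans ?_ (theta_le z)
    exact Finset.sum_le_sum_of_subset_of_nonneg (Finset.filter_subset _ _)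
      fun p _ _ => Real.log_natCast_nonneg p
  have hres : ∀ p ∈ P, (4 : ℝ) * (Real.log p / p) ≤
      Real.log p / ((A.image (fun a : ℕ => a % p)).card : ℝ) +
      Real.log p / ((B.image (fun a : ℕ => a % p)).card : ℝ) := by
    intro p hp
    have hpp := hPp p hp
    have hp2 : p ≠ 2 := (mem_filter.1 hp).2
    have h1 := residues2 p hpp hp2 g e1 e2 A B (by
      intro x hx y hy hdvd
      have h2 := (Nat.prime_dvd_prime_iff_eq hpp (hprime x hx y hy).1).1 hdvd
      have h3 := hPz p hp
      have h4 := (hprime x hx y hy).2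
      omega)
    set u : ℝ := ((A.image (fun a : ℕ => a % p)).card : ℝ) with hu
    set v : ℝ := ((B.image (fun a : ℕ => a % p)).card : ℝ) with hv
    have hu0 : 0 < u := by
      rw [hu]; exact_mod_cast Finset.card_pos.2 (hAne.image _)
    have hv0 : 0 < v := by
      rw [hv]; exact_mod_cast Finset.card_pos.2 (hBne.image _)
    have huv : u + v ≤ p := by rw [hu, hv]; exact_mod_cast h1
    have hp0 : (0 : ℝ) < p := by exact_mod_cast hpp.pos
    have hlp : 0 ≤ Real.log (p : ℝ) := Real.log_natCast_nonneg p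
    have key : (4 : ℝ) * (1 / p) ≤ 1 / u + 1 / v := by
      have h6 : (4 : ℝ) * (1 / p) ≤ 4 * (1 / (u + v)) := by
        have : (1 : ℝ) / p ≤ 1 / (u + v) := one_div_le_one_div_of_le (by positivity) huv
        linarith
      refine h6.trans ?_
      rw [div_add_div _ _ hu0.ne' hv0.ne', mul_one_div, div_le_div_iff₀ (by positivity)
        (by positivity)]
      nlinarith [sq_nonneg (u - v)]
    calc (4 : ℝ) * (Real.log p / p) = Real.log p * (4 * (1 / p)) := by ring
      _ ≤ Real.log p * (1 / u + 1 / v) := mul_le_mul_of_nonneg_left key hlp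
      _ = Real.log p / u + Real.log p / v := by ring
  have hsum : (4 : ℝ) * (e * Real.log 2 - 4) ≤
      ∑ p ∈ P, Real.log p / ((A.image (fun a : ℕ => a % p)).card : ℝ) +
      ∑ p ∈ P, Real.log p / ((B.image (fun a : ℕ => a % p)).card : ℝ) := by
    rw [← Finset.sum_add_distrib]
    refine le_trans ?_ (Finset.sum_le_sum hres)
    rw [← Finset.mul_sum]
    rw [hlogz] at hm
    linarith
  have hLe : (m : ℝ) + 14 ≤ 2 * e := by exact_mod_cast he
  by_cases hcase : (m : ℝ) * Real.log 2 + 1 ≤
      ∑ p ∈ P, Real.log p / ((A.image (fun a : ℕ => a % p)).card : ℝ)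
  · left
    have := larger_sieve A P hPp m hA hcase
    exact_mod_cast this.trans hPsum
  · right
    push Not at hcase
    have h2 : (m : ℝ) * Real.log 2 + 1 ≤
        ∑ p ∈ P, Real.log p / ((B.image (fun a : ℕ => a % p)).card : ℝ) := by
      nlinarith
    have := larger_sieve B P hPp m hB h2
    exact_mod_cast this.trans hPsum

/-- R3. `val` is injective on words of the same length. -/
theorem val_inj (u v : List Bool) (h : u.length = v.length) (h2 : val u = val v) : u = v := by
  induction u generalizing v with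
  | nil => 
    have : v = [] := by
      apply List.length_eq_zero_iff.1
      simpa using h.symm
    rw [this]
  | cons b u ih =>
    cases v with
    | nil => simp at h
    | cons c v =>
      have hl : u.length = v.length := by simpa using h
      have e1 : val (b :: u) = b.toNat * 2 ^ u.length + val u := by
        have := val_append [b] u
        simpa [MP_5082c5_lc.val] using this
      have e2 : val (c :: v) = c.toNat * 2 ^ v.length + val v := by
        have := val_append [c] v
        simpa [MP_5082c5_lc.val] using this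
      rw [e1, e2, ← hl] at h2
      have l1 := val_lt u
      have l2 := val_lt v
      rw [← hl] at l2
      cases b <;> cases c
      · simp at h2
        rw [ih v hl h2]
      · simp at h2
        omega
      · simp at h2
        omega
      · simp at h2
        rw [ih v hl h2]

/-- R4. A prime word of length `n` has value at least `2^(n-1)`. -/
theorem val_ge (u : List Bool) (h : u ∈ PRIMES) : 2 ^ (u.length - 1) ≤ val u := by
  obtain ⟨p, hp, rfl⟩ := h
  rw [val_bits, List.length_reverse, Nat.size_eq_bits_len]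
  have h1 : 0 < Nat.size p := Nat.size_pos.2 hp.pos
  exact Nat.lt_size.1 (by omega)

/-- R5. The value of a frame. (`val_append` four times.) -/
theorem val_fr (a x b y e : List Bool) :
    ∃ g e1 e2 : ℕ, ∀ x' y' : List Bool, x'.length = x.length → y'.length = y.length →
      val (fr a x' b y' e) = g + 2 ^ e1 * val x' + 2 ^ e2 * val y' := by
  refine ⟨((val a * 2 ^ x.length * 2 ^ b.length + val b) * 2 ^ y.length) * 2 ^ e.length + val e,
    b.length + y.length + e.length, e.length, ?_⟩
  intro x' y' hx hy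
  rw [fr, val_append, val_append, val_append, val_append, hx, hy]
  ring

/-- R6. The all-prime rectangles of words. Proof: R2 with the images of `X`, `Y` under `val`
(injective by R3), `val_lt`, R4, R5, `e = (m + 15) / 2 < n - 1`; then
`#X #Y ≤ 2^m * (2 * 2^e)` (`X`, `Y` have at most `2^m` elements). -/
theorem rect_words (m n : ℕ) (hmn : m ≤ n / 12) (hn : 9 ≤ n) (a b e : List Bool)
    (hlen : a.length + b.length + e.length + 2 * m = n)
    (X Y : Finset (List Bool)) (hX : ∀ x ∈ X, x.length = m) (hY : ∀ y ∈ Y, y.length = m)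
    (h : ∀ x ∈ X, ∀ y ∈ Y, fr a x b y e ∈ PRIMES) :
    ((X.card * Y.card : ℕ) : ℝ) ≤ (2 : ℝ) ^ ((3 : ℝ) / 2 * m + 9) := by
  classical
  have w1 : ∀ r : ℕ, ∀ u : List Bool, u.length = r →
      u ∈ (univ : Finset (Fin r → Bool)).image List.ofFn := by
    rintro r u rfl
    exact mem_image.2 ⟨fun i => u.get i, mem_univ _, by simp⟩
  have w2 : ((univ : Finset (Fin m → Bool)).image List.ofFn).card = 2 ^ m := by
    rw [card_image_of_injective _ List.ofFn_injective]
    simp
  have hXc : X.card ≤ 2 ^ m := by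
    rw [← w2]; exact card_le_card fun x hx => w1 m x (hX x hx)
  have hYc : Y.card ≤ 2 ^ m := by
    rw [← w2]; exact card_le_card fun x hx => w1 m x (hY x hx)
  rcases X.eq_empty_or_nonempty with rfl | hXne
  · simp; positivity
  rcases Y.eq_empty_or_nonempty with rfl | hYne
  · simp; positivity
  obtain ⟨x0, hx0⟩ := hXne
  obtain ⟨y0, hy0⟩ := hYne
  obtain ⟨g, e1, e2, hg⟩ := val_fr a x0 b y0 e
  obtain ⟨d, hd1, hd2⟩ : ∃ d, m + 14 ≤ 2 * d ∧ 2 * d ≤ m + 15 :=
    ⟨(m + 15) / 2, by omega, by omega⟩
  have hdn : d < n - 1 := by omega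
  have hXi : Set.InjOn MP_5082c5_lc.val (X : Set (List Bool)) := by
    intro u hu v hv huv
    exact val_inj u v ((hX u hu).trans (hX v hv).symm) huv
  have hYi : Set.InjOn MP_5082c5_lc.val (Y : Set (List Bool)) := by
    intro u hu v hv huv
    exact val_inj u v ((hY u hu).trans (hY v hv).symm) huv
  have cX := card_image_of_injOn hXi
  have cY := card_image_of_injOn hYi
  have key := rect_small2 m d g e1 e2 (X.image MP_5082c5_lc.val) (Y.image MP_5082c5_lc.val)
    (by
      intro x hx
      obtain ⟨u, hu, rfl⟩ := mem_image.1 hx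
      rw [← hX u hu]; exact val_lt u)
    (by
      intro x hx
      obtain ⟨u, hu, rfl⟩ := mem_image.1 hx
      rw [← hY u hu]; exact val_lt u)
    (by
      intro x hx y hy
      obtain ⟨u, hu, rfl⟩ := mem_image.1 hx
      obtain ⟨v, hv, rfl⟩ := mem_image.1 hy
      have h1 := h u hu v hv
      rw [← hg u v ((hX u hu).trans (hX x0 hx0).symm) ((hY v hv).trans (hY y0 hy0).symm)]
      have h2 := prime_of_mem h1
      have h3 := val_ge _ h1
      have h4 : (fr a u b v e).length = n := by
        simp only [fr, List.length_append, hX u hu, hY v hv]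
        omega
      have h5 : fr a u b v e = fr a u b v e := rfl
      rw [h4] at h3
      exact ⟨h2, lt_of_lt_of_le (Nat.pow_lt_pow_right (by norm_num) hdn) h3⟩) hd1
  rw [cX, cY] at key
  have hfin : ((2 ^ m * (2 * 2 ^ d) : ℕ) : ℝ) ≤ (2 : ℝ) ^ ((3 : ℝ) / 2 * m + 9) := by
    have q1 : ((2 ^ m * (2 * 2 ^ d) : ℕ) : ℝ) = (2 : ℝ) ^ ((m + (1 + d) : ℕ) : ℝ) := by
      rw [Real.rpow_natCast]; push_cast; ring
    rw [q1]
    apply Real.rpow_le_rpow_of_exponent_le (by norm_num)
    have h2 : (2 : ℝ) * d ≤ m + 15 := by exact_mod_cast hd2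
    push_cast
    linarith
  refine le_trans ?_ hfin
  rcases key with h1 | h1
  · have h2 : X.card * Y.card ≤ 2 ^ m * (2 * 2 ^ d) := by
      calc X.card * Y.card ≤ (2 * 2 ^ d) * 2 ^ m := Nat.mul_le_mul h1 hYc
        _ = _ := by ring
    exact_mod_cast h2
  · exact_mod_cast Nat.mul_le_mul hXc h1

/-- the words of length `r` -/
def words (r : ℕ) : Finset (List Bool) := (univ : Finset (Fin r → Bool)).image List.ofFn

/-- R7. -/
theorem mem_words (r : ℕ) (u : List Bool) : u ∈ words r ↔ u.length = r := by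
  constructor
  · intro h
    obtain ⟨f, -, rfl⟩ := mem_image.1 h
    simp
  · rintro rfl
    exact mem_image.2 ⟨fun i => u.get i, mem_univ _, by simp⟩

/-- R8. -/
theorem card_words (r : ℕ) : (words r).card = 2 ^ r := by
  rw [words, card_image_of_injective _ List.ofFn_injective]
  simp

end Pool.Agent.PrmH
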