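import Pool.Agent.PrmH.Def

/-!
# Two-way automata with several heads: paths, frames
-/

namespace Pool.Agent.PrmH

open Pool.Agent.MP_5082c5_lc

/-- configurations of an automaton: state and head positions -/
abbrev Cf (k : ℕ) (Q : Type) := Q × (Fin k → ℕ)

/-- a nondeterministic two-way automaton with `k` heads -/
structure Aut (k : ℕ) (Q : Type) where
  start : Q
  acc : Set Q
  tr : Q → (Fin k → Sym) → Q → (Fin k → Move) → Prop

variable {k : ℕ} {Q : Type}

/-- one step -/
def Aut.Step (A : Aut k Q) (u : List Bool) (c d : Cf k Q) : Prop :=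
  ∃ mv : Fin k → Move, A.tr c.1 (fun i => symAt u (c.2 i)) d.1 mv ∧
    d.2 = fun i => newPos u.length (c.2 i) (mv i)

/-- `c 0, …, c t` is an accepting computation on `u` with at most `D` moving steps -/
structure Aut.Comp (A : Aut k Q) (u : List Bool) (D t : ℕ) (c : ℕ → Cf k Q) : Prop where
  init : c 0 = (A.start, fun _ => 0)
  step : ∀ s < t, A.Step u (c s) (c (s + 1))
  fin : (c t).1 ∈ A.acc
  travel : {s : ℕ | s < t ∧ (c s).2 ≠ (c (s + 1)).2}.ncard ≤ D

/-- accepted with at most `D` moving steps -/
def Aut.AccIn (A : Aut k Q) (u : List Bool) (D : ℕ) : Prop := ∃ t c, A.Comp u D t c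

/-- accepted -/
def Aut.Acc (A : Aut k Q) (u : List Bool) : Prop := ∃ D, A.AccIn u D

/-- No head of `c` scans a cell of block `i`; blocks have `m` cells, the cell `x` belongs to block
`(x - 1) / m` (natural subtraction, so the cell `0` counts for block `0`). -/
def Free (m i : ℕ) (c : Cf k Q) : Prop := ∀ h, (c.2 h - 1) / m ≠ i

/-- the word with blocks `x`, `y` in the frame `a, b, e` -/
def fr (a x b y e : List Bool) : List Bool := a ++ x ++ b ++ y ++ e

/-- A1. Changing the block `i` is not seen at a cell outside. Proof: `symAt w p` looks at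
`w[p-1]?`; if `p - 1 < a.length = i*m` this is an entry of `a`; if `p - 1 ≥ (i+1)*m` it is an entry
of `r` (the same index); otherwise `(p-1)/m = i`. The case `p = 0` is `Sym.left` in both words. -/
theorem symAt_block (m i p : ℕ) (hm : 0 < m) (a x x' r : List Bool) (ha : a.length = i * m)
    (hx : x.length = m) (hx' : x'.length = m) (hp : (p - 1) / m ≠ i) :
    symAt (a ++ (x ++ r)) p = symAt (a ++ (x' ++ r)) p := by
  have key : (a ++ (x ++ r))[p - 1]? = (a ++ (x' ++ r))[p - 1]? := by
    rcases lt_or_ge (p - 1) (i * m) with h | h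
    · rw [List.getElem?_append_left (by omega), List.getElem?_append_left (by omega)]
    · have h2 : (i + 1) * m ≤ p - 1 := by
        by_contra hc
        push Not at hc
        exact hp (Nat.div_eq_of_lt_le h hc)
      have h3 : (i + 1) * m = i * m + m := by ring
      rw [List.getElem?_append_right (by omega), List.getElem?_append_right (by omega),
        List.getElem?_append_right (by omega), List.getElem?_append_right (by omega), hx, hx']
  unfold symAt
  rw [key]

/-- A2. A step from a configuration that does not scan block `j` does not depend on `y`. (A1 with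
the prefix `a ++ x ++ b`; the lengths of both words agree.) -/
theorem step_y (A : Aut k Q) (m j : ℕ) (hm : 0 < m) (a x b y y' e : List Bool)
    (hj : a.length + x.length + b.length = j * m) (hy : y.length = m) (hy' : y'.length = m)
    (c d : Cf k Q) (hc : Free m j c) (h : A.Step (fr a x b y e) c d) :
    A.Step (fr a x b y' e) c d := by
  obtain ⟨mv, h1, h2⟩ := h
  have e1 : ∀ z : List Bool, fr a x b z e = (a ++ x ++ b) ++ (z ++ e) := fun z => by
    simp [fr, List.append_assoc]
  have hl : (a ++ x ++ b).length = j * m := by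
    rw [List.length_append, List.length_append]; exact hj
  refine ⟨mv, ?_, ?_⟩
  · have e2 : (fun i => symAt (fr a x b y' e) (c.2 i)) = fun i => symAt (fr a x b y e) (c.2 i) := by
      funext i
      rw [e1, e1]
      exact (symAt_block m j (c.2 i) hm _ y y' e hl hy hy' (hc i)).symm
    rw [e2]
    exact h1
  · have e3 : (fr a x b y' e).length = (fr a x b y e).length := by
      rw [e1, e1]
      simp only [List.length_append, hy, hy']
    rw [e3]
    exact h2

/-- A3. A step from a configuration that does not scan block `i` does not depend on `x`. -/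
theorem step_x (A : Aut k Q) (m i : ℕ) (hm : 0 < m) (a x x' b y e : List Bool)
    (ha : a.length = i * m) (hx : x.length = m) (hx' : x'.length = m)
    (c d : Cf k Q) (hc : Free m i c) (h : A.Step (fr a x b y e) c d) :
    A.Step (fr a x' b y e) c d := by
  obtain ⟨mv, h1, h2⟩ := h
  have e1 : ∀ z : List Bool, fr a z b y e = a ++ (z ++ (b ++ y ++ e)) := fun z => by
    simp [fr, List.append_assoc]
  refine ⟨mv, ?_, ?_⟩
  · have e2 : (fun i => symAt (fr a x' b y e) (c.2 i)) = fun i => symAt (fr a x b y e) (c.2 i) := by
      funext h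
      rw [e1, e1]
      exact (symAt_block m i (c.2 h) hm _ x x' _ ha hx hx' (hc h)).symm
    rw [e2]
    exact h1
  · have e3 : (fr a x' b y e).length = (fr a x b y e).length := by
      rw [e1, e1]
      simp only [List.length_append, hx, hx']
    rw [e3]
    exact h2

/-- A4. Positions stay in `0..n+1`. (Induction on `s`; `newPos n i mv ≤ n + 1` if `i ≤ n + 1`.) -/
theorem Aut.Comp.pos_le {A : Aut k Q} {u : List Bool} {D t : ℕ} {c : ℕ → Cf k Q}
    (hc : A.Comp u D t c) (s : ℕ) (hs : s ≤ t) (i : Fin k) : (c s).2 i ≤ u.length + 1 := by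
  induction s with
  | zero => rw [hc.init]; simp
  | succ s ih =>
    obtain ⟨mv, -, h2⟩ := hc.step s (by omega)
    rw [h2]
    have h3 := ih (by omega)
    show newPos u.length ((c s).2 i) (mv i) ≤ u.length + 1
    unfold newPos
    cases mv i <;> simp <;> omega

/-- the number of moving steps before `s` -/
noncomputable def trav (c : ℕ → Cf k Q) (s : ℕ) : ℕ :=
  {r : ℕ | r < s ∧ (c r).2 ≠ (c (r + 1)).2}.ncard

private theorem a5_succ (c : ℕ → Cf k Q) (s : ℕ) :
    trav c s ≤ trav c (s + 1) ∧
      ((c s).2 ≠ (c (s + 1)).2 → trav c (s + 1) = trav c s + 1) := by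
  have hf : ∀ s : ℕ, ({r : ℕ | r < s ∧ (c r).2 ≠ (c (r + 1)).2}).Finite := fun s =>
    (Set.finite_Iio s).subset (fun r hr => hr.1)
  constructor
  · unfold trav
    exact Set.ncard_le_ncard (fun r hr => ⟨by have := hr.1; omega, hr.2⟩) (hf (s + 1))
  · intro h
    have e : {r : ℕ | r < s + 1 ∧ (c r).2 ≠ (c (r + 1)).2} =
        insert s {r : ℕ | r < s ∧ (c r).2 ≠ (c (r + 1)).2} := by
      ext r
      simp only [Set.mem_setOf_eq, Set.mem_insert_iff]
      constructor
      · rintro ⟨h1, h2⟩
        rcases Nat.lt_succ_iff_lt_or_eq.1 h1 with h3 | h3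
        · exact Or.inr ⟨h3, h2⟩
        · exact Or.inl h3
      · rintro (h1 | ⟨h1, h2⟩)
        · subst h1; exact ⟨by omega, h⟩
        · exact ⟨by omega, h2⟩
    unfold trav
    rw [e, Set.ncard_insert_of_notMem (fun hr => lt_irrefl _ hr.1) (hf s)]

/-- A5. In steps between `s ≤ s'` a head moves at most `trav s' - trav s` cells. (Induction on
`s'`: `newPos` moves by at most 1, and a step that is not counted in `trav` moves no head.) -/
theorem Aut.Comp.pos_diff {A : Aut k Q} {u : List Bool} {D t : ℕ} {c : ℕ → Cf k Q}
    (hc : A.Comp u D t c) (s s' : ℕ) (hs : s ≤ s') (hs' : s' ≤ t) (i : Fin k) :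
    trav c s ≤ trav c s' ∧ (c s').2 i ≤ (c s).2 i + (trav c s' - trav c s) ∧
      (c s).2 i ≤ (c s').2 i + (trav c s' - trav c s) := by
  induction s', hs using Nat.le_induction with
  | base => exact ⟨le_rfl, by omega, by omega⟩
  | succ r hr ih =>
    obtain ⟨h1, h2, h3⟩ := ih (by omega)
    obtain ⟨h4, h5⟩ := a5_succ c r
    obtain ⟨mv, -, h7⟩ := hc.step r (by omega)
    have hpl := hc.pos_le r (by omega) i
    have h8 : (c (r + 1)).2 i = newPos u.length ((c r).2 i) (mv i) := by rw [h7]
    have h9 : (c (r + 1)).2 i ≤ (c r).2 i + 1 ∧ (c r).2 i ≤ (c (r + 1)).2 i + 1 := by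
      rw [h8]
      unfold newPos
      cases mv i <;> simp <;> omega
    by_cases h : (c r).2 = (c (r + 1)).2
    · rw [← h]
      omega
    · have := h5 h
      omega

/-- A6. A prime word with at least three digits ends in `true`. (Its value is odd: an even prime
is 2, and the value is at least `4` because the first digit is 1: `Nat.bits` has no leading zero,
use `enc_length` / `val_lt` or `Nat.size`.) -/
theorem last_true (u : List Bool) (b : Bool) (hu : 2 ≤ u.length)
    (h : u ++ [b] ∈ PRIMES) : b = true := by
  cases b with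
  | true => rfl
  | false =>
    exfalso
    have hp := prime_of_mem h
    have hv : val (u ++ [false]) = val u * 2 := by
      rw [val_append]; simp [val]
    obtain ⟨p, hp', he⟩ := h
    have hpv : val (u ++ [false]) = p := by rw [he]; exact val_bits p
    have h2 : (2 : ℕ) ∣ p := by rw [← hpv, hv]; exact Dvd.intro_left _ rfl
    have h3 : p = 2 := ((Nat.prime_dvd_prime_iff_eq Nat.prime_two hp').1 h2).symm
    have h4 := congrArg List.length he
    subst h3
    rw [List.length_append, List.length_reverse, Nat.size_eq_bits_len] at h4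
    have h5 : Nat.size 2 ≤ 2 := Nat.size_le.2 (by norm_num)
    simp at h4
    omega

/-- A7. If all accepted words of length `n ≥ 3` are prime words, every accepting computation on a
word of length `n` has at least `n` moving steps. Proof: otherwise no head ever scans the cell `n`
(A5 with `s = 0`: positions are at most `D < n`; `trav c t ≤ D`), so the same sequence `c` is a
computation on the word with the last digit changed (write `u = v ++ [b]`), both words are prime
words, contradiction to A6. (For `k = 0` nothing is scanned, same proof.) -/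
theorem travel_ge (A : Aut k Q) (n D : ℕ) (hn : 3 ≤ n) (u : List Bool) (hu : u.length = n)
    (hA : ∀ v : List Bool, v.length = n → A.Acc v → v ∈ PRIMES) (h : A.AccIn u D) : n ≤ D := by
  by_contra hD
  push Not at hD
  obtain ⟨t, c, hc⟩ := h
  obtain ⟨v, b, rfl⟩ : ∃ (v : List Bool) (b : Bool), u = v ++ [b] := by
    rcases List.eq_nil_or_concat u with h1 | ⟨v, b, h1⟩
    · rw [h1] at hu; simp at hu; omega
    · exact ⟨v, b, by rw [h1, List.concat_eq_append]⟩
  have hv : v.length + 1 = n := by rw [← hu]; simp
  have hpos : ∀ s < t, ∀ i, (c s).2 i < n := by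
    intro s hs i
    have h1 := (hc.pos_diff 0 s (Nat.zero_le _) hs.le i).2.1
    have h2 := (hc.pos_diff s t hs.le le_rfl i).1
    have h3 : trav c t ≤ D := hc.travel
    have h4 : (c 0).2 i = 0 := by rw [hc.init]
    omega
  have hsym : ∀ s < t, ∀ i, symAt (v ++ [!b]) ((c s).2 i) = symAt (v ++ [b]) ((c s).2 i) := by
    intro s hs i
    have h1 := hpos s hs i
    have key : (v ++ [!b])[(c s).2 i - 1]? = (v ++ [b])[(c s).2 i - 1]? := by
      rw [List.getElem?_append_left (by omega), List.getElem?_append_left (by omega)]
    unfold symAt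
    rw [key]
  have hc' : A.Comp (v ++ [!b]) D t c := by
    refine ⟨hc.init, fun s hs => ?_, hc.fin, hc.travel⟩
    obtain ⟨mv, h1, h2⟩ := hc.step s hs
    refine ⟨mv, ?_, ?_⟩
    · rw [show (fun i => symAt (v ++ [!b]) ((c s).2 i)) = fun i => symAt (v ++ [b]) ((c s).2 i)
        from funext (hsym s hs)]
      exact h1
    · rw [h2]
      simp only [List.length_append, List.length_singleton]
  have p1 := hA (v ++ [b]) (by simpa using hv) ⟨D, t, c, hc⟩
  have p2 := hA (v ++ [!b]) (by simpa using hv) ⟨D, t, c, hc'⟩
  have q1 := last_true v b (by omega) p1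
  have q2 := last_true v (!b) (by omega) p2
  rw [q1] at q2
  simp at q2

end Pool.Agent.PrmH
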