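import Pool.Agent.PrmH.Per
import Pool.Agent.PrmH.Rect

/-!
# Counting
-/

namespace Pool.Agent.PrmH

open Finset Real Pool.Agent.MP_5082c5_lc

variable {k : ℕ} {Q : Type}

/-- K0. Cutting a word of length `n` at two blocks. -/
theorem cut (m n i j : ℕ) (hij : i < j) (hj : (j + 1) * m ≤ n) (u : List Bool)
    (hu : u.length = n) :
    ∃ a x b y e : List Bool, u = fr a x b y e ∧ a.length = i * m ∧ x.length = m ∧
      a.length + x.length + b.length = j * m ∧ y.length = m ∧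
      e.length = n - (j + 1) * m := by
  have h1 : (i + 1) * m ≤ j * m := Nat.mul_le_mul_right m hij
  have h2 : j * m + m ≤ n := by rw [← Nat.succ_mul]; exact hj
  have h3 : (i + 1) * m = i * m + m := Nat.succ_mul i m
  have h4 : (j + 1) * m = j * m + m := Nat.succ_mul j m
  refine ⟨u.take (i * m), (u.drop (i * m)).take m,
    (u.drop (i * m + m)).take (j * m - (i * m + m)), (u.drop (j * m)).take m,
    u.drop (j * m + m), ?_, ?_, ?_, ?_, ?_, ?_⟩
  · unfold fr
    rw [← List.take_add, ← List.take_add]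
    have h5 : i * m + m + (j * m - (i * m + m)) = j * m := by omega
    rw [h5, ← List.take_add, List.take_append_drop]
  · rw [List.length_take, hu]; omega
  · rw [List.length_take, List.length_drop, hu]; omega
  · rw [List.length_take, List.length_take, List.length_take, List.length_drop,
      List.length_drop, hu]; omega
  · rw [List.length_take, List.length_drop, hu]; omega
  · rw [List.length_drop, hu]; omega

/-- K1. The words with good pair `i < j`. Proof: such a word is `fr a x b y e` (K0) with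
`v = a ++ b ++ e ∈ words (n - 2 m)` and has a transcript `d` (P6). For fixed `v` (cut at the known
lengths into `a, b, e`) and `d` with `OkE A d` the pairs `(x, y)` lie in `X ×ˢ Y`,
`X = {x ∈ words m : OkX}`, `Y = {y ∈ words m : OkY}`; by P7 and `hA` all words of `X ×ˢ Y` are
prime words, so `#X #Y ≤ 2^(3m/2+9)` by R6. The number of `v` is `2^(n-2m)`, the number of `d` is
`(#Q (n+2)^k)^(2l+2)`. -/
theorem count_good [Fintype Q] (A : Aut k Q) (m l D i j n : ℕ) (hm : 0 < m) (hmn : m ≤ n / 12)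
    (hn : 9 ≤ n) (hij : i < j) (hj : (j + 1) * m ≤ n)
    (hA : ∀ v : List Bool, v.length = n → A.Acc v → v ∈ PRIMES)
    (L : Finset (List Bool)) (hL : ∀ u ∈ L, u.length = n ∧ Good A m l D i j u) :
    (L.card : ℝ) ≤ (2 : ℝ) ^ (n - 2 * m) *
      ((Fintype.card Q : ℝ) * (n + 2) ^ k) ^ (2 * l + 2) * (2 : ℝ) ^ ((3 : ℝ) / 2 * m + 9) := by
  classical
  have h1 : (i + 1) * m ≤ j * m := Nat.mul_le_mul_right m hij
  have h3 : (i + 1) * m = i * m + m := Nat.succ_mul i m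
  have h4 : (j + 1) * m = j * m + m := Nat.succ_mul j m
  have h2 : j * m + m ≤ n := by rw [← h4]; exact hj
  set B : ℕ := j * m - (i * m + m) with hB
  let fa : List Bool → List Bool := fun v => v.take (i * m)
  let fb : List Bool → List Bool := fun v => (v.drop (i * m)).take B
  let fe : List Bool → List Bool := fun v => v.drop (i * m + B)
  let X : List Bool × Tr k Q n l → Finset (List Bool) := fun z =>
    (words m).filter (fun x => OkX A m j (fa z.1) (fb z.1) (fe z.1) z.2 x)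
  let Y : List Bool × Tr k Q n l → Finset (List Bool) := fun z =>
    (words m).filter (fun y => OkY A m i (fa z.1) (fb z.1) (fe z.1) z.2 y)
  let S : Finset (List Bool × Tr k Q n l) :=
    (words (n - 2 * m) ×ˢ (univ : Finset (Tr k Q n l))).filter (fun z => OkE A z.2)
  have hlen : ∀ z ∈ S, (fa z.1).length = i * m ∧ (fb z.1).length = B ∧
      (fe z.1).length = n - (j * m + m) := by
    intro z hz
    have hz1 : z.1.length = n - 2 * m := by
      have := (Finset.mem_filter.1 hz).1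
      rw [Finset.mem_product, mem_words] at this
      exact this.1
    refine ⟨?_, ?_, ?_⟩
    · show (z.1.take (i * m)).length = _
      rw [List.length_take, hz1]; omega
    · show ((z.1.drop (i * m)).take B).length = _
      rw [List.length_take, List.length_drop, hz1]; omega
    · show (z.1.drop (i * m + B)).length = _
      rw [List.length_drop, hz1]; omega
  have hsub : L ⊆ S.biUnion (fun z => (X z ×ˢ Y z).image
      (fun p => fr (fa z.1) p.1 (fb z.1) p.2 (fe z.1))) := by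
    intro u hu
    obtain ⟨hun, hg⟩ := hL u hu
    obtain ⟨a, x, b, y, e, rfl, ha, hx, hb, hy, he⟩ := cut m n i j hij hj u hun
    obtain ⟨d, hE, hX, hY⟩ := transcript A m l D i j n hm a x b y e ha hx hb hy hun hg
    have hbl : b.length = B := by rw [ha, hx] at hb; omega
    have e1 : fa (a ++ b ++ e) = a := by
      show (a ++ b ++ e).take (i * m) = a
      rw [← ha, List.append_assoc, List.take_left']
      rfl
    have e2 : fb (a ++ b ++ e) = b := by
      show ((a ++ b ++ e).drop (i * m)).take B = b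
      rw [← ha, List.append_assoc, List.drop_left' rfl, List.take_left' hbl]
    have e3 : fe (a ++ b ++ e) = e := by
      show (a ++ b ++ e).drop (i * m + B) = e
      rw [List.drop_left']
      rw [List.length_append, ha, hbl]
    have hvl : (a ++ b ++ e).length = n - 2 * m := by
      rw [List.length_append, List.length_append, ha, hbl, he]; omega
    rw [Finset.mem_biUnion]
    refine ⟨(a ++ b ++ e, d), ?_, ?_⟩
    · rw [Finset.mem_filter, Finset.mem_product]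
      exact ⟨⟨(mem_words _ _).2 hvl, Finset.mem_univ _⟩, hE⟩
    · rw [Finset.mem_image]
      refine ⟨(x, y), ?_, ?_⟩
      · rw [Finset.mem_product]
        refine ⟨Finset.mem_filter.2 ⟨(mem_words _ _).2 hx, ?_⟩,
          Finset.mem_filter.2 ⟨(mem_words _ _).2 hy, ?_⟩⟩
        · show OkX A m j (fa (a ++ b ++ e)) (fb (a ++ b ++ e)) (fe (a ++ b ++ e)) d x
          rw [e1, e2, e3]; exact hX
        · show OkY A m i (fa (a ++ b ++ e)) (fb (a ++ b ++ e)) (fe (a ++ b ++ e)) d y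
          rw [e1, e2, e3]; exact hY
      · show fr (fa (a ++ b ++ e)) x (fb (a ++ b ++ e)) y (fe (a ++ b ++ e)) = _
        rw [e1, e2, e3]
  have hXY : ∀ z ∈ S, (((X z).card * (Y z).card : ℕ) : ℝ) ≤ (2 : ℝ) ^ ((3 : ℝ) / 2 * m + 9) := by
    intro z hz
    obtain ⟨l1, l2, l3⟩ := hlen z hz
    have hE : OkE A z.2 := (Finset.mem_filter.1 hz).2
    refine rect_words m n hmn hn (fa z.1) (fb z.1) (fe z.1) (by rw [l1, l2, l3]; omega) (X z) (Y z)
      (fun x hx => (mem_words _ _).1 (Finset.mem_filter.1 hx).1)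
      (fun y hy => (mem_words _ _).1 (Finset.mem_filter.1 hy).1) ?_
    intro x hx y hy
    have hx1 : x.length = m := (mem_words _ _).1 (Finset.mem_filter.1 hx).1
    have hy1 : y.length = m := (mem_words _ _).1 (Finset.mem_filter.1 hy).1
    refine hA _ ?_ (acc_of_transcript A m l i j n hm (fa z.1) x (fb z.1) y (fe z.1) l1 hx1
      (by rw [l1, hx1, l2]; omega) hy1 z.2 hE (Finset.mem_filter.1 hx).2
      (Finset.mem_filter.1 hy).2)
    unfold fr
    rw [List.length_append, List.length_append, List.length_append, List.length_append, l1, l2, l3,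
      hx1, hy1]
    omega
  have hS : (S.card : ℝ) ≤ (2 : ℝ) ^ (n - 2 * m) *
      ((Fintype.card Q : ℝ) * (n + 2) ^ k) ^ (2 * l + 2) := by
    have h5 : S.card ≤ (words (n - 2 * m) ×ˢ (univ : Finset (Tr k Q n l))).card :=
      Finset.card_filter_le _ _
    have h6 : (words (n - 2 * m) ×ˢ (univ : Finset (Tr k Q n l))).card =
        2 ^ (n - 2 * m) * (Fintype.card Q * (n + 2) ^ k) ^ (2 * l + 2) := by
      rw [Finset.card_product, card_words, Finset.card_univ]
      congr 1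
      simp only [Fintype.card_pi, Finset.prod_const, Finset.card_univ, Fintype.card_fin,
        Fintype.card_prod]
    rw [h6] at h5
    calc (S.card : ℝ) ≤ ((2 ^ (n - 2 * m) * (Fintype.card Q * (n + 2) ^ k) ^ (2 * l + 2) : ℕ) : ℝ)
        := by exact_mod_cast h5
      _ = _ := by push_cast; ring
  have hc1 : L.card ≤ ∑ z ∈ S, (X z).card * (Y z).card := by
    refine (Finset.card_le_card hsub).trans (Finset.card_biUnion_le.trans ?_)
    refine Finset.sum_le_sum fun z _ => ?_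
    rw [← Finset.card_product]
    exact Finset.card_image_le
  calc (L.card : ℝ) ≤ ((∑ z ∈ S, (X z).card * (Y z).card : ℕ) : ℝ) := by exact_mod_cast hc1
    _ = ∑ z ∈ S, (((X z).card * (Y z).card : ℕ) : ℝ) := by push_cast; rfl
    _ ≤ ∑ z ∈ S, (2 : ℝ) ^ ((3 : ℝ) / 2 * m + 9) := Finset.sum_le_sum hXY
    _ = (S.card : ℝ) * (2 : ℝ) ^ ((3 : ℝ) / 2 * m + 9) := by rw [Finset.sum_const, nsmul_eq_mul]
    _ ≤ _ := by
        refine mul_le_mul_of_nonneg_right hS ?_
        positivity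

/-- K2. All words. (P5, K1, union over the pairs `i < j < b`: at most `b²` pairs.) -/
theorem count_all [Fintype Q] (A : Aut k Q) (m l D b n : ℕ) (hm : 0 < m) (hmn : m ≤ n / 12)
    (hn : 9 ≤ n) (hb : 12 ≤ b) (hbm : b * m ≤ n)
    (h1 : 4 * ((D / m + 1) * (2 * k)) ≤ b * (l + 1))
    (h2 : 2 * ((D / m + 1) * (2 * k) ^ 2) < b ^ 2)
    (hA : ∀ v : List Bool, v.length = n → A.Acc v → v ∈ PRIMES)
    (L : Finset (List Bool)) (hL : ∀ u ∈ L, u.length = n ∧ A.AccIn u D) :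
    (L.card : ℝ) ≤ (b : ℝ) ^ 2 * ((2 : ℝ) ^ (n - 2 * m) *
      ((Fintype.card Q : ℝ) * (n + 2) ^ k) ^ (2 * l + 2) * (2 : ℝ) ^ ((3 : ℝ) / 2 * m + 9)) := by
  classical
  set M : ℝ := (2 : ℝ) ^ (n - 2 * m) *
      ((Fintype.card Q : ℝ) * (n + 2) ^ k) ^ (2 * l + 2) * (2 : ℝ) ^ ((3 : ℝ) / 2 * m + 9) with hM
  have hM0 : 0 ≤ M := by positivity
  let F : ℕ × ℕ → Finset (List Bool) := fun z =>
    L.filter (fun u => z.1 < z.2 ∧ Good A m l D z.1 z.2 u)
  have hsub : L ⊆ (range b ×ˢ range b).biUnion F := by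
    intro u hu
    obtain ⟨i, j, hij, hjb, hg⟩ := exists_good A m l D b hm u (hL u hu).2 hb h1 h2
    rw [Finset.mem_biUnion]
    exact ⟨(i, j), by rw [Finset.mem_product, Finset.mem_range, Finset.mem_range]; exact
      ⟨hij.trans hjb, hjb⟩, Finset.mem_filter.2 ⟨hu, hij, hg⟩⟩
  have hF : ∀ z ∈ range b ×ˢ range b, ((F z).card : ℝ) ≤ M := by
    intro z hz
    rw [Finset.mem_product, Finset.mem_range, Finset.mem_range] at hz
    by_cases hlt : z.1 < z.2
    · refine count_good A m l D z.1 z.2 n hm hmn hn hlt ?_ hA (F z) ?_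
      · exact (Nat.mul_le_mul_right m hz.2).trans hbm
      · intro u hu
        have := Finset.mem_filter.1 hu
        exact ⟨(hL u this.1).1, this.2.2⟩
    · have : F z = ∅ := by
        rw [Finset.eq_empty_iff_forall_notMem]
        intro u hu
        exact hlt (Finset.mem_filter.1 hu).2.1
      rw [this, Finset.card_empty, Nat.cast_zero]
      exact hM0
  have hc : L.card ≤ ∑ z ∈ range b ×ˢ range b, (F z).card :=
    (Finset.card_le_card hsub).trans Finset.card_biUnion_le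
  calc (L.card : ℝ) ≤ ((∑ z ∈ range b ×ˢ range b, (F z).card : ℕ) : ℝ) := by exact_mod_cast hc
    _ = ∑ z ∈ range b ×ˢ range b, ((F z).card : ℝ) := by push_cast; rfl
    _ ≤ ∑ z ∈ range b ×ˢ range b, M := Finset.sum_le_sum hF
    _ = (b : ℝ) ^ 2 * M := by
        rw [Finset.sum_const, nsmul_eq_mul, Finset.card_product, Finset.card_range]
        push_cast; ring

/-- K3. Choice of the parameters. With `τ = D / n + 1` (natural division), `b = 24 k² τ + 12 ≤ n`,
`m = n / b`, `l = 24 k τ`: `D / m + 1 ≤ 3 b τ` because `D ≤ τ n ≤ 2 τ b m` (`n < (b+1) m ...`,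
precisely `n < b (m + 1) ≤ 2 b m`). -/
theorem params (n D b m l τ : ℕ) (hn : 9 ≤ n) (hτ : τ = D / n + 1) (hb : b = 24 * k ^ 2 * τ + 12)
    (hbn : b ≤ n) (hm : m = n / b) (hl : l = 24 * k * τ) :
    0 < m ∧ m ≤ n / 12 ∧ b * m ≤ n ∧ n ≤ 2 * b * m ∧ 4 * ((D / m + 1) * (2 * k)) ≤ b * (l + 1) ∧
      2 * ((D / m + 1) * (2 * k) ^ 2) < b ^ 2 := by
  have hn0 : 0 < n := by omega
  have hb0 : 0 < b := by omega
  have hb12 : 12 ≤ b := by omega
  have hm0 : 0 < m := by rw [hm]; exact Nat.div_pos hbn hb0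
  have hbm : b * m ≤ n := by rw [hm]; exact Nat.mul_div_le n b
  have hn2 : n < b * (m + 1) := by rw [hm]; exact Nat.lt_mul_div_succ n hb0
  have hn3 : n ≤ 2 * b * m := by
    have : b * (m + 1) ≤ b * (2 * m) := Nat.mul_le_mul_left b (by omega)
    have h5 : b * (2 * m) = 2 * b * m := by ring
    omega
  have hD : D < n * τ := by rw [hτ]; exact Nat.lt_mul_div_succ D hn0
  have hτ0 : 0 < τ := by rw [hτ]; exact Nat.succ_pos _
  have hDm : D / m ≤ 2 * b * τ := by
    apply Nat.div_le_of_le_mul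
    calc D ≤ n * τ := hD.le
      _ ≤ 2 * b * m * τ := Nat.mul_le_mul_right τ hn3
      _ = m * (2 * b * τ) := by ring
  have hbt : 1 ≤ b * τ := Nat.mul_pos hb0 hτ0
  have hD1 : D / m + 1 ≤ 3 * (b * τ) := by
    have : 2 * b * τ = 2 * (b * τ) := by ring
    omega
  refine ⟨hm0, ?_, hbm, hn3, ?_, ?_⟩
  · rw [hm]; exact Nat.div_le_div_left hb12 (by norm_num)
  · calc 4 * ((D / m + 1) * (2 * k)) ≤ 4 * (3 * (b * τ) * (2 * k)) := by gcongr
      _ = b * (24 * k * τ) := by ring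
      _ ≤ b * (l + 1) := by rw [hl]; exact Nat.mul_le_mul_left b (by omega)
  · calc 2 * ((D / m + 1) * (2 * k) ^ 2) ≤ 2 * (3 * (b * τ) * (2 * k) ^ 2) := by gcongr
      _ = b * (24 * k ^ 2 * τ) := by ring
      _ < b * b := Nat.mul_lt_mul_of_pos_left (by omega) hb0
      _ = b ^ 2 := by ring

/-- K4. The inequality of logarithms. From K2: take logarithms (`1 ≤ #L`, `1 ≤ #Q`):
`log #L ≤ 2 log b + (n - 2m) log 2 + (2l+2)(log #Q + k log (n+2)) + (3m/2 + 9) log 2`. -/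
theorem log_count [Fintype Q] (A : Aut k Q) (m l D b n : ℕ) (hm : 0 < m) (hmn : m ≤ n / 12)
    (hn : 9 ≤ n) (hb : 12 ≤ b) (hbm : b * m ≤ n)
    (h1 : 4 * ((D / m + 1) * (2 * k)) ≤ b * (l + 1))
    (h2 : 2 * ((D / m + 1) * (2 * k) ^ 2) < b ^ 2)
    (hA : ∀ v : List Bool, v.length = n → A.Acc v → v ∈ PRIMES)
    (L : Finset (List Bool)) (hLn : L.Nonempty) (hL : ∀ u ∈ L, u.length = n ∧ A.AccIn u D) :
    (m : ℝ) / 2 * Real.log 2 ≤ Real.log ((2 : ℝ) ^ n / L.card) + 2 * Real.log b +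
      (2 * l + 2) * (Real.log (Fintype.card Q) + k * Real.log (n + 2)) + 9 * Real.log 2 := by
  have hq : 0 < Fintype.card Q := Fintype.card_pos_iff.2 ⟨A.start⟩
  have hq' : (0 : ℝ) < Fintype.card Q := by exact_mod_cast hq
  have hL0 : (0 : ℝ) < L.card := by exact_mod_cast hLn.card_pos
  have hb0 : (0 : ℝ) < b := by exact_mod_cast (show 0 < b by omega)
  have hn0 : (0 : ℝ) < (n : ℝ) + 2 := by positivity
  have h3 := count_all A m l D b n hm hmn hn hb hbm h1 h2 hA L hL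
  have h4 := Real.log_le_log hL0 h3
  have hp1 : (0 : ℝ) < (b : ℝ) ^ 2 := by positivity
  have hp2 : (0 : ℝ) < (2 : ℝ) ^ (n - 2 * m) := by positivity
  have hp3 : (0 : ℝ) < ((Fintype.card Q : ℝ) * (n + 2) ^ k) ^ (2 * l + 2) := by positivity
  have hp4 : (0 : ℝ) < (2 : ℝ) ^ ((3 : ℝ) / 2 * m + 9) := by positivity
  rw [Real.log_mul hp1.ne' (by positivity), Real.log_mul (by positivity) hp4.ne',
    Real.log_mul hp2.ne' hp3.ne', Real.log_pow, Real.log_pow, Real.log_pow,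
    Real.log_mul hq'.ne' (by positivity), Real.log_pow, Real.log_rpow (by norm_num)] at h4
  have h2m : 2 * m ≤ n := by omega
  rw [Nat.cast_sub h2m] at h4
  rw [Real.log_div (by positivity) hL0.ne', Real.log_pow]
  push_cast at h4 ⊢
  linarith

/-- K5. Pure real analysis. `X = log (2^n/#L) ≥ 0`, `Z = log #Q ≥ 0`. For every `k` there is
`c > 0` such that the inequality K4 with the parameters K3 (or `n < b`) gives the bound.
Proof: `τ ≤ 2 D / n`, `b ≤ 36 (k²+1) τ`.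
If `n < b`: `n² < 72 (k²+1) D`, so `n³ ≤ (72 (k²+1))² D² / n ≤ C D² log n`.
If `b ≤ n`: `m ≥ n/(2b) ≥ n/(72 (k²+1) τ)`, `log b ≤ log n`, `log (n+2) ≤ 2 log n`,
`2 l + 2 ≤ 50 (k+1) τ`, `9 log 2 ≤ 6 log n`, so `c₁ n / τ ≤ X + C₁ τ (Z + log n)`,
`c₁ n ≤ C₂ τ² (X + Z + log n) ≤ 4 C₂ D²/n² (X + Z + log n)`. -/
theorem numeric (k : ℕ) : ∃ c : ℝ, 0 < c ∧ ∀ (n D : ℕ) (X Z : ℝ), 9 ≤ n → n ≤ D → 0 ≤ X → 0 ≤ Z →
    (24 * k ^ 2 * (D / n + 1) + 12 ≤ n →
      ((n / (24 * k ^ 2 * (D / n + 1) + 12) : ℕ) : ℝ) / 2 * Real.log 2 ≤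
        X + 2 * Real.log ((24 * k ^ 2 * (D / n + 1) + 12 : ℕ) : ℝ) +
        (2 * ((24 * k * (D / n + 1) : ℕ) : ℝ) + 2) * (Z + k * Real.log (n + 2)) +
        9 * Real.log 2) →
    c * (n : ℝ) ^ 3 ≤ (D : ℝ) ^ 2 * (Z + Real.log n + X) := by
  refine ⟨1 / (95904 * ((k : ℝ) ^ 2 + 1) * ((k : ℝ) + 1) ^ 2), by positivity, ?_⟩
  intro n D X Z hn hnD hX hZ hmain
  set τ : ℕ := D / n + 1 with hτ
  set b : ℕ := 24 * k ^ 2 * τ + 12 with hb
  have hn0 : 0 < n := by omega
  have hnR : (9 : ℝ) ≤ n := by exact_mod_cast hn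
  have hnpos : (0 : ℝ) < n := by linarith
  have hk : (0 : ℝ) ≤ k := Nat.cast_nonneg k
  have hDn : 1 ≤ D / n := (Nat.one_le_div_iff hn0).2 hnD
  have hτD : (τ : ℝ) * n ≤ 2 * D := by
    have h1 : τ * n ≤ 2 * D := by
      calc τ * n ≤ (2 * (D / n)) * n := Nat.mul_le_mul_right n (by omega)
        _ = 2 * (D / n * n) := by ring
        _ ≤ 2 * D := Nat.mul_le_mul_left 2 (Nat.div_mul_le_self D n)
    exact_mod_cast h1
  have hτ1 : (1 : ℝ) ≤ τ := by exact_mod_cast (show 1 ≤ τ by omega)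
  have hbR : (b : ℝ) ≤ 36 * ((k : ℝ) ^ 2 + 1) * τ := by
    have h1 : (b : ℝ) = 24 * (k : ℝ) ^ 2 * τ + 12 := by rw [hb]; push_cast; ring
    rw [h1]
    have h2 : 0 ≤ (k : ℝ) ^ 2 * τ := by positivity
    nlinarith
  have hlogn : 1 ≤ Real.log n := by
    rw [Real.le_log_iff_exp_le hnpos]
    have := Real.exp_one_lt_d9
    linarith
  have hW : 1 ≤ Z + Real.log n + X := by linarith
  have hW0 : 0 ≤ Z + Real.log n + X := by linarith
  have hK1 : (0 : ℝ) < (k : ℝ) ^ 2 + 1 := by positivity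
  have hD0 : (0 : ℝ) ≤ D := Nat.cast_nonneg D
  rw [div_mul_eq_mul_div, one_mul, div_le_iff₀ (by positivity)]
  have hkk : (k : ℝ) ^ 2 + 1 ≤ ((k : ℝ) + 1) ^ 2 := by nlinarith
  by_cases hbn : b ≤ n
  · have h1 := hmain hbn
    have hb12 : 12 ≤ b := by omega
    have hb0 : (0 : ℝ) < b := by exact_mod_cast (show 0 < b by omega)
    have hm1 : n < b * (n / b + 1) := Nat.lt_mul_div_succ n (by omega)
    have hm0 : 0 < n / b := Nat.div_pos hbn (by omega)
    set m : ℕ := n / b with hm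
    have hm2 : (n : ℝ) ≤ 2 * b * m := by
      have h5 : n ≤ 2 * b * m := by
        have : b * (m + 1) ≤ b * (2 * m) := Nat.mul_le_mul_left b (by omega)
        have h5 : b * (2 * m) = 2 * b * m := by ring
        omega
      exact_mod_cast h5
    have hlb : Real.log b ≤ Real.log n := Real.log_le_log hb0 (by exact_mod_cast hbn)
    have hln2 : Real.log ((n : ℝ) + 2) ≤ 2 * Real.log n := by
      have h6 : (n : ℝ) + 2 ≤ (n : ℝ) ^ 2 := by nlinarith
      calc Real.log ((n : ℝ) + 2) ≤ Real.log ((n : ℝ) ^ 2) :=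
            Real.log_le_log (by positivity) h6
        _ = 2 * Real.log n := by rw [Real.log_pow]; norm_num
    have hl2 : Real.log 2 ≤ 1 := by
      have := Real.log_two_lt_d9
      linarith
    have hl2' : (2 : ℝ) / 3 ≤ Real.log 2 := by
      have := Real.log_two_gt_d9
      linarith
    have hl : (2 * ((24 * k * τ : ℕ) : ℝ) + 2) ≤ 50 * ((k : ℝ) + 1) * τ := by
      push_cast
      have : 0 ≤ (k : ℝ) * τ := by positivity
      nlinarith
    have hl0 : 0 ≤ (2 * ((24 * k * τ : ℕ) : ℝ) + 2) := by positivity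
    have hZl : 0 ≤ Z + k * Real.log ((n : ℝ) + 2) := by
      have : 0 ≤ Real.log ((n : ℝ) + 2) := Real.log_nonneg (by linarith)
      positivity
    have hZ2 : Z + k * Real.log ((n : ℝ) + 2) ≤ Z + 2 * k * Real.log n := by
      nlinarith
    have h2 : (2 * ((24 * k * τ : ℕ) : ℝ) + 2) * (Z + k * Real.log ((n : ℝ) + 2)) ≤
        50 * ((k : ℝ) + 1) * τ * (Z + 2 * k * Real.log n) :=
      mul_le_mul hl hZ2 hZl (by positivity)
    have hm3 : (0 : ℝ) ≤ m := Nat.cast_nonneg m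
    -- the right-hand side
    have h3 : (m : ℝ) / 3 ≤ 111 * ((k : ℝ) + 1) ^ 2 * τ * (Z + Real.log n + X) := by
      have h4 : (m : ℝ) / 3 ≤ (m : ℝ) / 2 * Real.log 2 := by nlinarith
      have h5 : (m : ℝ) / 3 ≤ X + 11 * Real.log n + 50 * ((k : ℝ) + 1) * τ *
          (Z + 2 * k * Real.log n) := by
        have h51 : 9 * Real.log 2 ≤ 9 * Real.log n := by linarith
        linarith
      have e1 : X ≤ 111 * ((k : ℝ) + 1) ^ 2 * τ * X := by
        have h6 : 1 ≤ ((k : ℝ) + 1) ^ 2 := by nlinarith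
        have h7 : 1 ≤ 111 * ((k : ℝ) + 1) ^ 2 * τ := by nlinarith
        nlinarith
      have e2 : 50 * ((k : ℝ) + 1) * τ * Z ≤ 111 * ((k : ℝ) + 1) ^ 2 * τ * Z := by
        have h7 : 50 * ((k : ℝ) + 1) ≤ 111 * ((k : ℝ) + 1) ^ 2 := by nlinarith
        gcongr
      have e3 : 11 * Real.log n + 50 * ((k : ℝ) + 1) * τ * (2 * k * Real.log n) ≤
          111 * ((k : ℝ) + 1) ^ 2 * τ * Real.log n := by
        have h8 : 11 + 100 * ((k : ℝ) + 1) * k * τ ≤ 111 * ((k : ℝ) + 1) ^ 2 * τ := by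
          have h9 : 11 + 100 * ((k : ℝ) + 1) * k ≤ 111 * ((k : ℝ) + 1) ^ 2 := by nlinarith
          calc 11 + 100 * ((k : ℝ) + 1) * k * τ ≤ 11 * τ + 100 * ((k : ℝ) + 1) * k * τ := by
                linarith
            _ = (11 + 100 * ((k : ℝ) + 1) * k) * τ := by ring
            _ ≤ 111 * ((k : ℝ) + 1) ^ 2 * τ := by gcongr
        have h10 : 0 ≤ Real.log n := by linarith
        nlinarith
      calc (m : ℝ) / 3 ≤ X + 11 * Real.log n + 50 * ((k : ℝ) + 1) * τ *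
            (Z + 2 * k * Real.log n) := h5
        _ = X + 50 * ((k : ℝ) + 1) * τ * Z + (11 * Real.log n +
            50 * ((k : ℝ) + 1) * τ * (2 * k * Real.log n)) := by ring
        _ ≤ 111 * ((k : ℝ) + 1) ^ 2 * τ * X + 111 * ((k : ℝ) + 1) ^ 2 * τ * Z +
            111 * ((k : ℝ) + 1) ^ 2 * τ * Real.log n := by linarith
        _ = _ := by ring
    set W : ℝ := Z + Real.log n + X with hWdef
    have h6 : (n : ℝ) ≤ 23976 * ((k : ℝ) ^ 2 + 1) * ((k : ℝ) + 1) ^ 2 * (τ : ℝ) ^ 2 * W := by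
      calc (n : ℝ) ≤ 2 * b * m := hm2
        _ ≤ 2 * (36 * ((k : ℝ) ^ 2 + 1) * τ) * (3 * (111 * ((k : ℝ) + 1) ^ 2 * τ * W)) := by
            have h7 : (m : ℝ) ≤ 3 * (111 * ((k : ℝ) + 1) ^ 2 * τ * W) := by linarith
            gcongr
        _ = 23976 * ((k : ℝ) ^ 2 + 1) * ((k : ℝ) + 1) ^ 2 * (τ : ℝ) ^ 2 * W := by ring
    have h7 : (τ : ℝ) ^ 2 * (n : ℝ) ^ 2 ≤ 4 * (D : ℝ) ^ 2 := by
      have h8 : ((τ : ℝ) * n) ^ 2 ≤ (2 * (D : ℝ)) ^ 2 := by gcongr
      nlinarith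
    calc (n : ℝ) ^ 3 = (n : ℝ) * (n : ℝ) ^ 2 := by ring
      _ ≤ (23976 * ((k : ℝ) ^ 2 + 1) * ((k : ℝ) + 1) ^ 2 * (τ : ℝ) ^ 2 * W) * (n : ℝ) ^ 2 := by
          gcongr
      _ = 23976 * ((k : ℝ) ^ 2 + 1) * ((k : ℝ) + 1) ^ 2 * W * ((τ : ℝ) ^ 2 * (n : ℝ) ^ 2) := by
          ring
      _ ≤ 23976 * ((k : ℝ) ^ 2 + 1) * ((k : ℝ) + 1) ^ 2 * W * (4 * (D : ℝ) ^ 2) := by gcongr
      _ = (D : ℝ) ^ 2 * W * (95904 * ((k : ℝ) ^ 2 + 1) * ((k : ℝ) + 1) ^ 2) := by ring
  · have hbn' : (n : ℝ) ≤ b := by exact_mod_cast (show n ≤ b by omega)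
    have h1 : (n : ℝ) ^ 2 ≤ 72 * ((k : ℝ) ^ 2 + 1) * D := by
      calc (n : ℝ) ^ 2 = (n : ℝ) * n := by ring
        _ ≤ (36 * ((k : ℝ) ^ 2 + 1) * τ) * n := by
            gcongr
            exact hbn'.trans hbR
        _ = 36 * ((k : ℝ) ^ 2 + 1) * (τ * n) := by ring
        _ ≤ 36 * ((k : ℝ) ^ 2 + 1) * (2 * D) := by gcongr
        _ = 72 * ((k : ℝ) ^ 2 + 1) * D := by ring
    have h2 : ((n : ℝ) ^ 2) ^ 2 ≤ (72 * ((k : ℝ) ^ 2 + 1) * D) ^ 2 := by gcongr
    have h3 : (n : ℝ) ^ 3 ≤ ((n : ℝ) ^ 2) ^ 2 := by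
      have : (n : ℝ) ^ 3 * 1 ≤ (n : ℝ) ^ 3 * n := by gcongr; linarith
      nlinarith
    calc (n : ℝ) ^ 3 ≤ (72 * ((k : ℝ) ^ 2 + 1) * D) ^ 2 := h3.trans h2
      _ = (D : ℝ) ^ 2 * 1 * (5184 * ((k : ℝ) ^ 2 + 1) * ((k : ℝ) ^ 2 + 1)) := by ring
      _ ≤ (D : ℝ) ^ 2 * (Z + Real.log n + X) *
          (95904 * ((k : ℝ) ^ 2 + 1) * ((k : ℝ) + 1) ^ 2) := by
          gcongr
          norm_num

/-- K6. The theorem for automata. (A7 for `n ≤ D`; `n ≥ 9`: K3, K4, K5; `3 ≤ n < 9`: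
`n³ ≤ 729`, `D² log n ≥ 9 log 3 ≥ 9`; take the minimum of the constants; `0 ≤ log (2^n/#L)`
because `#L ≤ 2^n` (`L ⊆ words n`), `0 ≤ log #Q`.) -/
theorem core (k : ℕ) : ∃ c : ℝ, 0 < c ∧ ∀ (Q : Type) [Fintype Q] (A : Aut k Q) (n D : ℕ)
    (L : Finset (List Bool)), 3 ≤ n → L.Nonempty → (∀ u ∈ L, u.length = n ∧ A.AccIn u D) →
    (∀ v : List Bool, v.length = n → A.Acc v → v ∈ PRIMES) →
    n ≤ D ∧ c * (n : ℝ) ^ 3 ≤ (D : ℝ) ^ 2 *
      (Real.log (Fintype.card Q) + Real.log n + Real.log ((2 : ℝ) ^ n / L.card)) := by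
  obtain ⟨c0, hc0, hnum⟩ := numeric k
  refine ⟨min c0 (1 / 729), lt_min hc0 (by norm_num), ?_⟩
  intro Q _ A n D L hn hLn hL hA
  obtain ⟨u, hu⟩ := hLn
  have hnD : n ≤ D := travel_ge A n D hn u (hL u hu).1 hA (hL u hu).2
  refine ⟨hnD, ?_⟩
  have hq : 0 < Fintype.card Q := Fintype.card_pos_iff.2 ⟨A.start⟩
  have hZ : 0 ≤ Real.log (Fintype.card Q) := Real.log_natCast_nonneg _
  have hL0 : (0 : ℝ) < L.card := by exact_mod_cast Finset.card_pos.2 ⟨u, hu⟩
  have hLle : (L.card : ℝ) ≤ (2 : ℝ) ^ n := by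
    have h1 : L ⊆ words n := fun v hv => (mem_words n v).2 (hL v hv).1
    have h2 := Finset.card_le_card h1
    rw [card_words] at h2
    exact_mod_cast h2
  have hX : 0 ≤ Real.log ((2 : ℝ) ^ n / L.card) :=
    Real.log_nonneg (by rw [le_div_iff₀ hL0, one_mul]; exact hLle)
  have hnR : (3 : ℝ) ≤ n := by exact_mod_cast hn
  have hD2 : (3 : ℝ) ≤ D := hnR.trans (by exact_mod_cast hnD)
  have hlog : 1 ≤ Real.log n := by
    rw [Real.le_log_iff_exp_le (by linarith)]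
    have := Real.exp_one_lt_d9
    linarith
  by_cases h9 : 9 ≤ n
  · have h1 := hnum n D (Real.log ((2 : ℝ) ^ n / L.card)) (Real.log (Fintype.card Q)) h9 hnD hX hZ
      (fun hb => by
        obtain ⟨p1, p2, p3, _, p5, p6⟩ := params (k := k) n D _ _ _ _ h9 rfl rfl hb rfl rfl
        exact log_count A _ _ D _ n p1 p2 h9 (by omega) p3 p5 p6 hA L ⟨u, hu⟩ hL)
    refine le_trans ?_ h1
    gcongr
    exact min_le_left _ _
  · have hn9 : (n : ℝ) ≤ 9 := by exact_mod_cast (show n ≤ 9 by omega)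
    calc min c0 (1 / 729) * (n : ℝ) ^ 3 ≤ 1 / 729 * (9 : ℝ) ^ 3 := by
          gcongr
          exact min_le_right _ _
      _ = 1 * 1 := by norm_num
      _ ≤ (D : ℝ) ^ 2 * (Real.log (Fintype.card Q) + Real.log n +
          Real.log ((2 : ℝ) ^ n / L.card)) := by
          gcongr
          · nlinarith
          · linarith

end Pool.Agent.PrmH
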