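import Pool.Agent.MP_5082c5_lc.Enc

/-!
# Nondeterministic machines with several two-way input heads
-/

namespace Pool.Agent.PrmH

open Pool.Agent.MP_5082c5_lc

/-- A nondeterministic Turing machine with `k` two-way read-only input heads and `w` two-way
infinite read-write work tapes. -/
structure NTM where
  /-- the number of input heads -/
  k : ℕ
  /-- the number of work tapes -/
  w : ℕ
  /-- the states -/
  Q : Type
  /-- the work tape symbols -/
  Γ : Type
  [finQ : Fintype Q]
  [finΓ : Fintype Γ]
  /-- the blank symbol -/
  blank : Γ
  /-- the initial state -/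
  start : Q
  /-- the accepting states -/
  acc : Set Q
  /-- the transition relation: from the state, the input symbols scanned by the input heads and the
  scanned work symbols to the new state, the moves of the input heads, the written work symbols and
  the moves of the work heads -/
  δ : Q → (Fin k → Sym) → (Fin w → Γ) → Q → (Fin k → Move) → (Fin w → Γ) → (Fin w → Move) → Prop

attribute [instance] NTM.finQ NTM.finΓ

/-- A configuration: state, positions of the input heads, contents of the work tapes, positions of
the work heads. Position `0` of the input tape holds the left endmarker, positions `1, …, n` hold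
the input, position `n + 1` holds the right endmarker. -/
structure Conf (M : NTM) where
  q : M.Q
  pos : Fin M.k → ℕ
  tape : Fin M.w → ℤ → M.Γ
  hd : Fin M.w → ℤ

/-- The initial configuration. -/
def initConf (M : NTM) : Conf M :=
  { q := M.start
    pos := fun _ => 0
    tape := fun _ _ => M.blank
    hd := fun _ => 0 }

/-- One step on the input `u` leads from `c` to `d`. -/
def Step (M : NTM) (u : List Bool) (c d : Conf M) : Prop :=
  ∃ (mv : Fin M.k → Move) (wr : Fin M.w → M.Γ) (wm : Fin M.w → Move),
    M.δ c.q (fun i => symAt u (c.pos i)) (fun i => c.tape i (c.hd i)) d.q mv wr wm ∧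
    (d.pos = fun i => newPos u.length (c.pos i) (mv i)) ∧
    (d.tape = fun i z => if z = c.hd i then wr i else c.tape i z) ∧
    (d.hd = fun i => c.hd i + (wm i).toInt)

/-- `u` has an accepting computation `c 0, …, c t` in which at most `D` steps move an input head
and at most `S` work cells (pairs of a work tape and a position) are visited. -/
def AcceptsIn (M : NTM) (u : List Bool) (D S : ℕ) : Prop :=
  ∃ (t : ℕ) (c : ℕ → Conf M), c 0 = initConf M ∧ (∀ s < t, Step M u (c s) (c (s + 1))) ∧
    (c t).q ∈ M.acc ∧
    {s : ℕ | s < t ∧ (c s).pos ≠ (c (s + 1)).pos}.ncard ≤ D ∧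
    {x : Fin M.w × ℤ | ∃ s ≤ t, (c s).hd x.1 = x.2}.ncard ≤ S

/-- `M` accepts `u`: there is an accepting computation. -/
def Accepts (M : NTM) (u : List Bool) : Prop := ∃ D S, AcceptsIn M u D S

end Pool.Agent.PrmH
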