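import Pool.Agent.PrmH.Cnt

/-!
# From machines to automata; the number of prime words
-/

namespace Pool.Agent.PrmH

open Finset Real Pool.Agent.MP_5082c5_lc

/-- the states of the automaton that simulates `M` in space `S`: state, contents of the work cells
`-S..S`, positions of the work heads in `-S..S` -/
abbrev SQ (M : NTM) (S : ℕ) := M.Q × (Fin M.w → Fin (2 * S + 1) → M.Γ) × (Fin M.w → Fin (2 * S + 1))

/-- `z` codes the work part of `c`; the cells outside `-S..S` are blank -/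
def Codes (M : NTM) (S : ℕ) (z : SQ M S) (c : Conf M) : Prop :=
  z.1 = c.q ∧ (∀ i (p : Fin (2 * S + 1)), z.2.1 i p = c.tape i ((p : ℤ) - S)) ∧
    (∀ i (p : ℤ), (p < -S ∨ S < p) → c.tape i p = M.blank) ∧
    ∀ i, ((z.2.2 i : ℕ) : ℤ) - S = c.hd i

/-- the simulating automaton -/
def simA (M : NTM) (S : ℕ) : Aut M.k (SQ M S) where
  start := (M.start, fun _ _ => M.blank, fun _ => ⟨S, by omega⟩)
  acc := {z | z.1 ∈ M.acc}
  tr z sym z' mv := ∃ (wr : Fin M.w → M.Γ) (wm : Fin M.w → Move),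
    M.δ z.1 sym (fun i => z.2.1 i (z.2.2 i)) z'.1 mv wr wm ∧
    (∀ i p, z'.2.1 i p = if p = z.2.2 i then wr i else z.2.1 i p) ∧
    ∀ i, (((z'.2.2 i : ℕ) : ℤ)) = ((z.2.2 i : ℕ) : ℤ) + (wm i).toInt

private theorem t1_ivt (f : ℕ → ℤ) (t : ℕ) (h0 : f 0 = 0)
    (hf : ∀ s < t, f (s + 1) = f s ∨ f (s + 1) = f s + 1 ∨ f (s + 1) = f s - 1) :
    ∀ s ≤ t, ∀ z : ℤ, (0 ≤ z ∧ z ≤ f s) ∨ (f s ≤ z ∧ z ≤ 0) → ∃ r ≤ s, f r = z := by
  intro s
  induction s with
  | zero =>
    intro _ z hz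
    exact ⟨0, le_rfl, by rw [h0] at hz ⊢; omega⟩
  | succ s ih =>
    intro hs z hz
    by_cases h : (0 ≤ z ∧ z ≤ f s) ∨ (f s ≤ z ∧ z ≤ 0)
    · obtain ⟨r, hr, h1⟩ := ih (by omega) z h
      exact ⟨r, by omega, h1⟩
    · refine ⟨s + 1, le_rfl, ?_⟩
      have := hf s (by omega)
      omega

private theorem t1_cases (m : Move) (x : ℤ) :
    x + m.toInt = x ∨ x + m.toInt = x + 1 ∨ x + m.toInt = x - 1 := by
  cases m
  · right; right; simp only [Move.toInt]; ring
  · left; simp only [Move.toInt]; ring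
  · right; left; simp only [Move.toInt]

private theorem t1_fin (M : NTM) (t : ℕ) (c : ℕ → Conf M) :
    ({x : Fin M.w × ℤ | ∃ s ≤ t, (c s).hd x.1 = x.2}).Finite := by
  apply Set.Finite.subset (((range (t + 1)) ×ˢ (univ : Finset (Fin M.w))).image
    (fun z => (z.2, (c z.1).hd z.2))).finite_toSet
  rintro ⟨i, z⟩ ⟨s, hs, h⟩
  simp only [Finset.coe_image, Set.mem_image, Finset.mem_coe, Finset.mem_product, Finset.mem_range,
    Finset.mem_univ, and_true]
  exact ⟨(s, i), by simpa using Nat.lt_succ_of_le hs, by simpa using h⟩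

/-- T1. In a computation with at most `S` visited cells the work heads stay in `-S..S`.
Proof: on each tape the visited positions form an interval that contains 0 (steps move by at most
one), so if `|hd| > S` at some time, more than `S` cells of this tape are visited. -/
theorem hd_le (M : NTM) (u : List Bool) (t S : ℕ) (c : ℕ → Conf M) (h0 : c 0 = initConf M)
    (hs : ∀ s < t, Step M u (c s) (c (s + 1)))
    (hS : {x : Fin M.w × ℤ | ∃ s ≤ t, (c s).hd x.1 = x.2}.ncard ≤ S) (s : ℕ) (hst : s ≤ t)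
    (i : Fin M.w) : |(c s).hd i| ≤ S := by
  by_contra hc
  push Not at hc
  have key := t1_ivt (fun r => (c r).hd i) t (by rw [h0]; rfl) (fun r hr => by
    obtain ⟨mv, wr, wm, -, -, -, h4⟩ := hs r hr
    simp only [h4]
    exact t1_cases _ _) s hst
  have hsub : (((Finset.Icc (min 0 ((c s).hd i)) (max 0 ((c s).hd i))).image
      (fun z : ℤ => (i, z)) : Finset (Fin M.w × ℤ)) : Set (Fin M.w × ℤ)) ⊆
      {x : Fin M.w × ℤ | ∃ s ≤ t, (c s).hd x.1 = x.2} := by
    intro x hx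
    simp only [Finset.coe_image, Set.mem_image, Finset.mem_coe, Finset.mem_Icc] at hx
    obtain ⟨z, ⟨h1, h2⟩, rfl⟩ := hx
    obtain ⟨r, hr, h3⟩ := key z (by
      rcases le_total 0 ((c s).hd i) with h | h
      · rw [min_eq_left h] at h1; rw [max_eq_right h] at h2; exact Or.inl ⟨h1, h2⟩
      · rw [min_eq_right h] at h1; rw [max_eq_left h] at h2; exact Or.inr ⟨h1, h2⟩)
    exact ⟨r, hr.trans hst, h3⟩
  have h1 := Set.ncard_le_ncard hsub (t1_fin M t c)
  rw [Set.ncard_coe_finset, Finset.card_image_of_injective _ (fun a b h => (Prod.ext_iff.1 h).2),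
    Int.card_Icc] at h1
  have h2 : max 0 ((c s).hd i) + 1 - min 0 ((c s).hd i) = |(c s).hd i| + 1 := by
    rcases le_total 0 ((c s).hd i) with h | h
    · rw [min_eq_left h, max_eq_right h, abs_of_nonneg h]; ring
    · rw [min_eq_right h, max_eq_left h, abs_of_nonpos h]; ring
  rw [h2] at h1
  omega

/-- T2. The cells outside `-S..S` stay blank if the heads stay inside. -/
theorem blank_out (M : NTM) (u : List Bool) (t S : ℕ) (c : ℕ → Conf M) (h0 : c 0 = initConf M)
    (hs : ∀ s < t, Step M u (c s) (c (s + 1))) (hh : ∀ s ≤ t, ∀ i, |(c s).hd i| ≤ S)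
    (s : ℕ) (hst : s ≤ t) (i : Fin M.w) (p : ℤ) (hp : p < -S ∨ S < p) :
    (c s).tape i p = M.blank := by
  induction s with
  | zero => rw [h0]; rfl
  | succ s ih =>
    obtain ⟨mv, wr, wm, -, -, h3, -⟩ := hs s (by omega)
    have h5 := hh s (by omega) i
    rw [abs_le] at h5
    rw [h3]
    show (if p = (c s).hd i then wr i else (c s).tape i p) = M.blank
    rw [if_neg (by omega)]
    exact ih (by omega)

/-- the code of a configuration -/
private def t3_code (M : NTM) (S : ℕ) (c : Conf M) : SQ M S :=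
  (c.q, fun i p => c.tape i ((p : ℤ) - S), fun i => ⟨min (c.hd i + S).toNat (2 * S), by omega⟩)

/-- T3. Acceptance in space `S` is acceptance by the automaton. (T1, T2: the configuration `c s`
has a code `z s`; `(z s, (c s).pos)` is a computation of `simA M S`.) -/
theorem accIn_sim (M : NTM) (u : List Bool) (D S : ℕ) (h : AcceptsIn M u D S) :
    (simA M S).AccIn u D := by
  obtain ⟨t, c, h0, hs, hf, hD, hS⟩ := h
  have hh : ∀ s ≤ t, ∀ i, |(c s).hd i| ≤ S := fun s hst i => hd_le M u t S c h0 hs hS s hst i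
  have hz : ∀ s ≤ t, ∀ i, (((t3_code M S (c s)).2.2 i : ℕ) : ℤ) = (c s).hd i + S := by
    intro s hst i
    have h1 := abs_le.1 (hh s hst i)
    show ((min ((c s).hd i + S).toNat (2 * S) : ℕ) : ℤ) = _
    omega
  refine ⟨t, fun s => (t3_code M S (c s), (c s).pos), ?_, ?_, hf, hD⟩
  · show (t3_code M S (c 0), (c 0).pos) = _
    rw [h0]
    refine Prod.ext ?_ rfl
    show ((M.start, (fun _ _ => M.blank), fun _ => _) : SQ M S) = _
    refine Prod.ext rfl (Prod.ext rfl ?_)
    funext i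
    apply Fin.ext
    show min ((0 : ℤ) + S).toNat (2 * S) = S
    omega
  · intro s hst
    obtain ⟨mv, wr, wm, h1, h2, h3, h4⟩ := hs s hst
    refine ⟨mv, ⟨wr, wm, ?_, ?_, ?_⟩, h2⟩
    · have e : (fun i => (t3_code M S (c s)).2.1 i ((t3_code M S (c s)).2.2 i)) =
          fun i => (c s).tape i ((c s).hd i) := by
        funext i
        show (c s).tape i ((((t3_code M S (c s)).2.2 i : ℕ) : ℤ) - S) = _
        rw [hz s hst.le i]
        congr 1
        ring
      show M.δ (c s).q _ (fun i => (t3_code M S (c s)).2.1 i ((t3_code M S (c s)).2.2 i))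
        (c (s + 1)).q mv wr wm
      rw [e]
      exact h1
    · intro i p
      show (c (s + 1)).tape i ((p : ℤ) - S) =
        if p = (t3_code M S (c s)).2.2 i then wr i else (c s).tape i ((p : ℤ) - S)
      have hzi := hz s hst.le i
      rw [h3]
      show (if ((p : ℕ) : ℤ) - S = (c s).hd i then wr i else (c s).tape i ((p : ℤ) - S)) = _
      have e : (((p : ℕ) : ℤ) - S = (c s).hd i) ↔ p = (t3_code M S (c s)).2.2 i := by
        rw [Fin.ext_iff]
        omega
      simp only [e]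
    · intro i
      show (((t3_code M S (c (s + 1))).2.2 i : ℕ) : ℤ) =
        (((t3_code M S (c s)).2.2 i : ℕ) : ℤ) + (wm i).toInt
      rw [hz s hst.le i, hz (s + 1) hst i, h4]
      ring

/-- the configuration coded by `z` -/
private noncomputable def t4_dec (M : NTM) (S : ℕ) (z : SQ M S) (pos : Fin M.k → ℕ) : Conf M where
  q := z.1
  pos := pos
  tape := fun i p => if h : (p + S).toNat < 2 * S + 1 ∧ 0 ≤ p + S then z.2.1 i ⟨(p + S).toNat, h.1⟩
    else M.blank
  hd := fun i => ((z.2.2 i : ℕ) : ℤ) - S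

/-- T4. The automaton accepts only words accepted by the machine. (From a computation of
`simA M S` build configurations of `M`, blank outside `-S..S`; the space bound `S'` of the
resulting computation is the cardinality of the finite set of visited cells.) -/
theorem accepts_of_sim (M : NTM) (u : List Bool) (S : ℕ) (h : (simA M S).Acc u) :
    Accepts M u := by
  obtain ⟨D, t, c, hc⟩ := h
  refine ⟨D, {x : Fin M.w × ℤ | ∃ s ≤ t, (t4_dec M S (c s).1 (c s).2).hd x.1 = x.2}.ncard, t,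
    fun s => t4_dec M S (c s).1 (c s).2, ?_, ?_, hc.fin, hc.travel, le_rfl⟩
  · show t4_dec M S (c 0).1 (c 0).2 = initConf M
    rw [hc.init]
    unfold t4_dec initConf simA
    simp
  · intro s hst
    obtain ⟨mv, ⟨wr, wm, h1, h2, h3⟩, h4⟩ := hc.step s hst
    refine ⟨mv, wr, wm, ?_, h4, ?_, ?_⟩
    · have e : (fun i => (t4_dec M S (c s).1 (c s).2).tape i ((t4_dec M S (c s).1 (c s).2).hd i)) =
          fun i => (c s).1.2.1 i ((c s).1.2.2 i) := by
        funext i
        have hi := ((c s).1.2.2 i).2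
        show (if h : (((((c s).1.2.2 i : ℕ) : ℤ) - S) + S).toNat < 2 * S + 1 ∧
          0 ≤ ((((c s).1.2.2 i : ℕ) : ℤ) - S) + S then
          (c s).1.2.1 i ⟨(((((c s).1.2.2 i : ℕ) : ℤ) - S) + S).toNat, h.1⟩ else M.blank) = _
        rw [dif_pos ⟨by omega, by omega⟩]
        refine congrArg ((c s).1.2.1 i) (Fin.ext ?_)
        show (((((c s).1.2.2 i : ℕ) : ℤ) - S) + S).toNat = ((c s).1.2.2 i : ℕ)
        omega
      rw [e]
      exact h1
    · funext i p
      show (if h : (p + S).toNat < 2 * S + 1 ∧ 0 ≤ p + S then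
          (c (s + 1)).1.2.1 i ⟨(p + S).toNat, h.1⟩ else M.blank) =
        if p = (((c s).1.2.2 i : ℕ) : ℤ) - S then wr i else
          if h : (p + S).toNat < 2 * S + 1 ∧ 0 ≤ p + S then
          (c s).1.2.1 i ⟨(p + S).toNat, h.1⟩ else M.blank
      have hi := ((c s).1.2.2 i).2
      by_cases h : (p + S).toNat < 2 * S + 1 ∧ 0 ≤ p + S
      · rw [dif_pos h, dif_pos h, h2]
        have e : ((⟨(p + S).toNat, h.1⟩ : Fin (2 * S + 1)) = (c s).1.2.2 i) ↔
            p = (((c s).1.2.2 i : ℕ) : ℤ) - S := by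
          rw [Fin.ext_iff]
          show (p + S).toNat = ((c s).1.2.2 i : ℕ) ↔ _
          omega
        simp only [e]
      · rw [dif_neg h, dif_neg h, if_neg (by
          intro h5
          apply h
          constructor <;> omega)]
    · funext i
      show (((c (s + 1)).1.2.2 i : ℕ) : ℤ) - S = (((c s).1.2.2 i : ℕ) : ℤ) - S + (wm i).toInt
      rw [h3 i]
      ring

/-- T5. The number of states. -/
theorem log_card_SQ (M : NTM) : ∃ C : ℝ, 0 < C ∧ ∀ S : ℕ,
    Real.log (Fintype.card (SQ M S)) ≤ C * (S + 1) := by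
  have hQ : 1 ≤ Fintype.card M.Q := Fintype.card_pos_iff.2 ⟨M.start⟩
  have hΓ : 1 ≤ Fintype.card M.Γ := Fintype.card_pos_iff.2 ⟨M.blank⟩
  have lQ : 0 ≤ Real.log (Fintype.card M.Q) := Real.log_nonneg (by exact_mod_cast hQ)
  have lΓ : 0 ≤ Real.log (Fintype.card M.Γ) := Real.log_nonneg (by exact_mod_cast hΓ)
  refine ⟨Real.log (Fintype.card M.Q) + 2 * M.w * Real.log (Fintype.card M.Γ) + 2 * M.w + 1,
    by positivity, fun S => ?_⟩
  have hcard : (Fintype.card (SQ M S) : ℝ) = (Fintype.card M.Q : ℝ) *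
      ((((Fintype.card M.Γ : ℝ) ^ (2 * S + 1)) ^ M.w) * ((2 * S + 1 : ℕ) : ℝ) ^ M.w) := by
    rw [Fintype.card_prod, Fintype.card_prod, Fintype.card_fun, Fintype.card_fun, Fintype.card_fun,
      Fintype.card_fin, Fintype.card_fin]
    push_cast
    ring
  have h0 : (0 : ℝ) < Fintype.card M.Q := by exact_mod_cast hQ
  have h1 : (0 : ℝ) < Fintype.card M.Γ := by exact_mod_cast hΓ
  have h2 : (0 : ℝ) < ((2 * S + 1 : ℕ) : ℝ) := by positivity
  rw [hcard, Real.log_mul h0.ne' (by positivity), Real.log_mul (by positivity) (by positivity),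
    Real.log_pow, Real.log_pow, Real.log_pow]
  have h3 : Real.log ((2 * S + 1 : ℕ) : ℝ) ≤ 2 * S := by
    have := Real.log_le_sub_one_of_pos h2
    push_cast at this ⊢
    linarith
  have hS : (0 : ℝ) ≤ S := by positivity
  have hw : (0 : ℝ) ≤ M.w := by positivity
  have h4 : (M.w : ℝ) * Real.log ((2 * S + 1 : ℕ) : ℝ) ≤ M.w * (2 * S) :=
    mul_le_mul_of_nonneg_left h3 hw
  have h5 : 0 ≤ Real.log (Fintype.card M.Q) * S := mul_nonneg lQ hS
  have h6 : 0 ≤ (M.w : ℝ) * Real.log (Fintype.card M.Γ) := mul_nonneg hw lΓ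
  have h7 : (M.w : ℝ) * (((2 * S + 1 : ℕ) : ℝ) * Real.log (Fintype.card M.Γ)) =
      2 * S * ((M.w : ℝ) * Real.log (Fintype.card M.Γ)) +
        (M.w : ℝ) * Real.log (Fintype.card M.Γ) := by
    push_cast; ring
  rw [h7]
  nlinarith [h4, h5, h6, hS, hw]

private theorem t6_mem (n : ℕ) (hn : 3 ≤ n) (u : List Bool) :
    u ∈ (np n).image enc ↔ u ∈ PRIMES ∧ u.length = n := by
  rw [Finset.mem_image]
  constructor
  · rintro ⟨p, hp, rfl⟩
    simp only [np, mem_filter, mem_Ico] at hp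
    exact ⟨enc_mem_primes hp.2, enc_length (by omega) hp.1.1 hp.1.2⟩
  · rintro ⟨⟨p, hp, rfl⟩, hl⟩
    refine ⟨p, ?_, rfl⟩
    rw [List.length_reverse, Nat.size_eq_bits_len] at hl
    simp only [np, mem_filter, mem_Ico]
    refine ⟨⟨?_, ?_⟩, hp⟩
    · have h1 : n - 1 < Nat.size p := by omega
      exact Nat.lt_size.1 h1
    · exact Nat.size_le.1 hl.le

private theorem t6_card (n : ℕ) : ((np n).image enc).card = (np n).card :=
  Finset.card_image_of_injective _ (fun p q h => by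
    have := congrArg MP_5082c5_lc.val h
    rwa [val_enc, val_enc] at this)

private theorem t6_ne (n : ℕ) (hn : 3 ≤ n) : (np n).Nonempty := by
  obtain ⟨p, hp, h1, h2⟩ := Nat.exists_prime_lt_and_le_two_mul (2 ^ (n - 1)) (by positivity)
  refine ⟨p, ?_⟩
  simp only [np, mem_filter, mem_Ico]
  have h3 : 2 * 2 ^ (n - 1) = 2 ^ n := by
    rw [← pow_succ', Nat.sub_add_cancel (by omega)]
  rw [h3] at h2
  refine ⟨⟨h1.le, lt_of_le_of_ne h2 ?_⟩, hp⟩
  rintro rfl
  exact (Nat.Prime.not_prime_pow (by omega)) hp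

private theorem t6_large : ∃ n₀ : ℕ, ∀ n ≥ n₀, (2 : ℝ) ^ n ≤ 6 * n * (np n).card := by
  have h1 : Filter.Tendsto (fun n : ℕ => (n : ℝ) ^ 1 / ((2 : ℝ) ^ ((1 : ℝ) / 2)) ^ n)
      Filter.atTop (nhds 0) := by
    apply tendsto_pow_const_div_const_pow_of_one_lt
    exact Real.one_lt_rpow (by norm_num) (by norm_num)
  have h2 := h1.eventually (gt_mem_nhds (show (0 : ℝ) < 1 / 12 by norm_num))
  obtain ⟨m, hm⟩ := Filter.eventually_atTop.1 h2
  refine ⟨max m 4, fun n hn => ?_⟩
  have hn4 : 4 ≤ n := le_trans (le_max_right _ _) hn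
  have h3 := hm n (le_trans (le_max_left _ _) hn)
  have hn1 : (4 : ℝ) ≤ n := by exact_mod_cast hn4
  have hr : ((2 : ℝ) ^ ((1 : ℝ) / 2)) ^ n = (2 : ℝ) ^ ((n : ℝ) / 2) := by
    rw [← Real.rpow_natCast, ← Real.rpow_mul (by norm_num)]
    congr 1; ring
  rw [hr, pow_one, div_lt_iff₀ (by positivity)] at h3
  have h4 := np_lower n hn4
  have e1 : (2 : ℝ) ^ n = (2 : ℝ) ^ ((n : ℝ) / 2) * (2 : ℝ) ^ ((n : ℝ) / 2) := by
    rw [← Real.rpow_add (by norm_num), ← Real.rpow_natCast]
    congr 1; ring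
  set Y : ℝ := (2 : ℝ) ^ ((n : ℝ) / 2) with hY
  have hY1 : 1 ≤ Y := Real.one_le_rpow (by norm_num) (by positivity)
  have h5 : (n : ℝ) * (Y + 1) ≤ n * (2 * Y) := mul_le_mul_of_nonneg_left (by linarith) (by positivity)
  have h6 : (12 * n : ℝ) * Y ≤ Y * Y := mul_le_mul_of_nonneg_right (by linarith) (by linarith)
  rw [e1] at h4 ⊢
  nlinarith

/-- T6. The prime words of length `n` as a finset, and how many there are (`np_lower` for large
`n`, nonempty for `n ≥ 3`: there is a prime with `n` binary digits by Bertrand,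
`Nat.exists_prime_lt_and_le_two_mul`). -/
theorem prime_words : ∃ C : ℝ, 0 < C ∧ ∀ n : ℕ, 3 ≤ n → ∃ L : Finset (List Bool),
    (∀ u, u ∈ L ↔ u ∈ PRIMES ∧ u.length = n) ∧ L.Nonempty ∧
    Real.log ((2 : ℝ) ^ n / L.card) ≤ C * Real.log n := by
  obtain ⟨n₀, h0⟩ := t6_large
  refine ⟨3 + n₀, by positivity, fun n hn => ⟨(np n).image enc, t6_mem n hn,
    (t6_ne n hn).image _, ?_⟩⟩
  rw [t6_card]
  have hc : (1 : ℝ) ≤ (np n).card := by exact_mod_cast (t6_ne n hn).card_pos
  have hn3 : (3 : ℝ) ≤ n := by exact_mod_cast hn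
  have hlog : 1 ≤ Real.log n := by
    rw [Real.le_log_iff_exp_le (by linarith)]
    exact (Real.exp_one_lt_d9.le.trans (by norm_num)).trans hn3
  have hn0 : (0 : ℝ) ≤ n₀ := by positivity
  rcases le_or_gt n₀ n with h | h
  · have h1 := h0 n h
    have h2 : (2 : ℝ) ^ n / (np n).card ≤ 6 * n := by
      rw [div_le_iff₀ (by linarith)]; exact h1
    have h3 : Real.log ((2 : ℝ) ^ n / (np n).card) ≤ Real.log (6 * n) :=
      Real.log_le_log (by positivity) h2
    have h4 : Real.log (6 * n) ≤ 3 * Real.log n := by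
      rw [Real.log_mul (by norm_num) (by linarith)]
      have h5 : Real.log 6 ≤ Real.log ((n : ℝ) ^ 2) := Real.log_le_log (by norm_num) (by nlinarith)
      rw [Real.log_pow] at h5
      push_cast at h5
      linarith
    have h5 : 0 ≤ (n₀ : ℝ) * Real.log n := mul_nonneg hn0 (by linarith)
    linarith
  · have h1 : (2 : ℝ) ^ n / (np n).card ≤ (2 : ℝ) ^ n := div_le_self (by positivity) hc
    have h2 : Real.log ((2 : ℝ) ^ n / (np n).card) ≤ Real.log ((2 : ℝ) ^ n) :=
      Real.log_le_log (by positivity) h1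
    rw [Real.log_pow] at h2
    have h3 : Real.log 2 ≤ 1 := by
      have := Real.log_two_lt_d9; linarith
    have h4 : (n : ℝ) ≤ n₀ := by exact_mod_cast h.le
    have h5 : (n : ℝ) * Real.log 2 ≤ n * 1 := mul_le_mul_of_nonneg_left h3 (by linarith)
    have h6 : (n₀ : ℝ) * 1 ≤ n₀ * Real.log n := mul_le_mul_of_nonneg_left hlog hn0
    linarith

/-- T7. The main theorem, first part. (K6 for `simA M S`, T3, T4, T5.) -/
theorem main_one (M : NTM) (hM : ∀ u, Accepts M u → u ∈ PRIMES) :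
    ∃ c : ℝ, 0 < c ∧ ∀ (n D S : ℕ) (L : Finset (List Bool)), 3 ≤ n → L.Nonempty →
      (∀ u ∈ L, u.length = n ∧ AcceptsIn M u D S) →
      c * (n : ℝ) ^ 3 ≤ (D : ℝ) ^ 2 * (S + Real.log n + Real.log ((2 : ℝ) ^ n / L.card)) := by
  obtain ⟨c, hc, hcore⟩ := core M.k
  obtain ⟨C, hC, hlog⟩ := log_card_SQ M
  refine ⟨c / (C + 1), by positivity, fun n D S L hn hL hLD => ?_⟩
  have h1 := (hcore (SQ M S) (simA M S) n D L hn hL
    (fun u hu => ⟨(hLD u hu).1, accIn_sim M u D S (hLD u hu).2⟩)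
    (fun v _ hv => hM v (accepts_of_sim M v S hv))).2
  have hn3 : (3 : ℝ) ≤ n := by exact_mod_cast hn
  have hln : 1 ≤ Real.log n := by
    rw [Real.le_log_iff_exp_le (by linarith)]
    exact (Real.exp_one_lt_d9.le.trans (by norm_num)).trans hn3
  have hc1 : (1 : ℝ) ≤ L.card := by exact_mod_cast hL.card_pos
  have hc2 : (L.card : ℝ) ≤ (2 : ℝ) ^ n := by
    have h2 : L ⊆ words n := fun u hu => (mem_words n u).2 (hLD u hu).1
    have h3 := Finset.card_le_card h2
    rw [card_words] at h3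
    exact_mod_cast h3
  have hX : 0 ≤ Real.log ((2 : ℝ) ^ n / L.card) := by
    apply Real.log_nonneg
    rw [le_div_iff₀ (by linarith)]
    linarith
  have h2 := hlog S
  have hS : (0 : ℝ) ≤ S := by positivity
  have h3 : Real.log (Fintype.card (SQ M S)) + Real.log n + Real.log ((2 : ℝ) ^ n / L.card) ≤
      (C + 1) * (S + Real.log n + Real.log ((2 : ℝ) ^ n / L.card)) := by
    nlinarith
  have h4 := mul_le_mul_of_nonneg_left h3 (show (0 : ℝ) ≤ (D : ℝ) ^ 2 by positivity)
  rw [div_mul_eq_mul_div, div_le_iff₀ (by positivity)]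
  calc c * (n : ℝ) ^ 3 ≤ _ := h1
    _ ≤ _ := h4
    _ = _ := by ring

/-- T8. The main theorem, second part. (T6, T7.) -/
theorem main_two (M : NTM) (hM : ∀ u, Accepts M u ↔ u ∈ PRIMES) :
    ∃ c : ℝ, 0 < c ∧ ∀ n D S : ℕ, 3 ≤ n →
      (∀ u, u ∈ PRIMES → u.length = n → AcceptsIn M u D S) →
      c * (n : ℝ) ^ 3 ≤ (D : ℝ) ^ 2 * (S + Real.log n) := by
  obtain ⟨c, hc, h1⟩ := main_one M (fun u hu => (hM u).1 hu)
  obtain ⟨C, hC, h2⟩ := prime_words
  refine ⟨c / (C + 1), by positivity, fun n D S hn hA => ?_⟩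
  obtain ⟨L, hL1, hL2, hL3⟩ := h2 n hn
  have h3 := h1 n D S L hn hL2 (fun u hu => ⟨((hL1 u).1 hu).2, hA u ((hL1 u).1 hu).1 ((hL1 u).1 hu).2⟩)
  have hn3 : (3 : ℝ) ≤ n := by exact_mod_cast hn
  have hln : 0 ≤ Real.log n := Real.log_nonneg (by linarith)
  have hS : (0 : ℝ) ≤ S := by positivity
  have h4 : S + Real.log n + Real.log ((2 : ℝ) ^ n / L.card) ≤ (C + 1) * (S + Real.log n) := by
    nlinarith
  have h5 := mul_le_mul_of_nonneg_left h4 (show (0 : ℝ) ≤ (D : ℝ) ^ 2 by positivity)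
  rw [div_mul_eq_mul_div, div_le_iff₀ (by positivity)]
  calc c * (n : ℝ) ^ 3 ≤ _ := h3
    _ ≤ _ := h5
    _ = _ := by ring

end Pool.Agent.PrmH
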